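import Mathlib
import Pool.Graph.R_seed8.H373R2.T7.SupE2
import Pool.Graph.R_seed8.H373R2.T7.BilF

set_option autoImplicit false
set_option linter.unusedVariables false
set_option linter.unusedSectionVars false

/-! Rough numbers to two different levels: the exponential sums. -/

namespace Pool.Agent.H68.GR
open Finset
open Pool.Agent.H373R2.T7
open Pool.Agent.H807R2.Dav

/-- `c` is prime to the primes up to `z` which divide `q` -/
def Cop (z q c : ℕ) : Prop := ∀ p ∈ pz z, p ∣ q → ¬ p ∣ c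

instance (z q c : ℕ) : Decidable (Cop z q c) := by unfold Cop; infer_instance

/-- the density of the model in a class -/
noncomputable def kap (z q : ℕ) : ℝ :=
  (Vz z)⁻¹ * (1 / (q : ℝ) * ∏ p ∈ (pz z).filter (fun p => ¬ p ∣ q), (1 - 1 / (p : ℝ)))

lemma fac_pos {z p : ℕ} (hp : p ∈ pz z) : (0 : ℝ) < 1 - 1 / (p : ℝ) := by
  have : (2 : ℝ) ≤ p := by exact_mod_cast (mem_pz.1 hp).2.two_le
  rw [sub_pos, div_lt_one (by linarith)]
  linarith

lemma kap_nonneg (z q : ℕ) : 0 ≤ kap z q := by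
  unfold kap
  have h1 := Vz_pos z
  have h2 : (0 : ℝ) < ∏ p ∈ (pz z).filter (fun p => ¬ p ∣ q), (1 - 1 / (p : ℝ)) :=
    prod_pos fun p hp => fac_pos (mem_filter.1 hp).1
  positivity

lemma kap_eq (z q : ℕ) : kap z q = 1 / (q : ℝ) * (∏ p ∈ (pz z).filter (fun p => p ∣ q), (1 - 1 / (p : ℝ)))⁻¹ := by
  unfold kap
  have h1 : Vz z = (∏ p ∈ (pz z).filter (fun p => p ∣ q), (1 - 1 / (p : ℝ))) *
      ∏ p ∈ (pz z).filter (fun p => ¬ p ∣ q), (1 - 1 / (p : ℝ)) := by
    unfold Vz
    rw [prod_filter_mul_prod_filter_not]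
  have h2 : (0 : ℝ) < ∏ p ∈ (pz z).filter (fun p => ¬ p ∣ q), (1 - 1 / (p : ℝ)) :=
    prod_pos fun p hp => fac_pos (mem_filter.1 hp).1
  have h3 : (0 : ℝ) < ∏ p ∈ (pz z).filter (fun p => p ∣ q), (1 - 1 / (p : ℝ)) :=
    prod_pos fun p hp => fac_pos (mem_filter.1 hp).1
  rw [h1, mul_inv]
  field_simp

/-- the rough numbers in an arbitrary progression -/
lemma rough_ap2 (z q c y r : ℕ) (hq : 1 ≤ q) (hc : Cop z q c) :
    |(((Icc 1 y).filter (fun n => n ≡ c [MOD q])).filter (fun n => ∀ p ∈ pz z, ¬ p ∣ n)).card -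
      (y : ℝ) / q * ∏ p ∈ (pz z).filter (fun p => ¬ p ∣ q), (1 - 1 / (p : ℝ))| ≤
      ((z : ℝ) + 1) ^ r + 2 * y * Real.exp (3 * (1 + Real.log z) - r) := by
  set T := (pz z).filter (fun p => ¬ p ∣ q) with hT
  have hq0 : (0 : ℝ) < q := by exact_mod_cast hq
  have hTz : T ⊆ pz z := filter_subset _ _
  have e1 : ((Icc 1 y).filter (fun n => n ≡ c [MOD q])).filter (fun n => ∀ p ∈ pz z, ¬ p ∣ n) =
      ((Icc 1 y).filter (fun n => n ≡ c [MOD q])).filter (fun n => ∀ p ∈ T, ¬ p ∣ n) := by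
    apply filter_congr
    intro n hn
    rw [mem_filter] at hn
    constructor
    · intro h p hp
      exact h p (hTz hp)
    · intro h p hp hpn
      by_cases hpq : p ∣ q
      · exact hc p hp hpq ((hn.2.dvd_iff hpq).1 hpn)
      · exact h p (mem_filter.2 ⟨hp, hpq⟩) hpn
  rw [e1]
  have key := sieve_gen' ((Icc 1 y).filter (fun n => n ≡ c [MOD q])) (fun _ => (1 : ℝ)) (fun _ _ => zero_le_one)
    (fun p n => p ∣ n) T (fun p => 1 / (p : ℝ)) (fun p hp => by
      have hp2 : (2 : ℝ) ≤ p := by exact_mod_cast (mem_pz.1 (hTz hp)).2.two_le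
      constructor
      · positivity
      · rw [div_le_one (by linarith)]; linarith) ((y : ℝ) / q) (by positivity) (fun _ => 1) r (by
      intro S hS _
      have hSp : ∀ p ∈ S, p.Prime := fun p hp => (mem_pz.1 (hTz (hS hp))).2
      have h := count_sys (fun _ a => a = 0) y S hSp q hq (fun p hp => (mem_filter.1 (hS hp)).2) c
      have h1 : ∀ p ∈ S, (((range p).filter (fun a => a = 0)).card : ℝ) = 1 := by
        intro p hp
        have : (range p).filter (fun a => a = 0) = {0} := by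
          ext a
          rw [mem_filter, mem_range, mem_singleton]
          constructor
          · rintro ⟨_, h⟩; exact h
          · rintro rfl; exact ⟨(hSp p hp).pos, rfl⟩
        rw [this]; simp
      have h2 : ∏ p ∈ S, ((((range p).filter (fun a => a = 0)).card : ℝ) / p) = ∏ p ∈ S, (1 / (p : ℝ)) :=
        prod_congr rfl fun p hp => by rw [h1 p hp]
      rw [h2, prod_congr rfl h1, prod_const_one] at h
      have h3 : ∑ i ∈ ((Icc 1 y).filter (fun n => n ≡ c [MOD q])) with ∀ p ∈ S, p ∣ i, (1 : ℝ) =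
          (((Icc 1 y).filter (fun n => n ≡ c [MOD q] ∧ ∀ p ∈ S, n % p = 0)).card : ℝ) := by
        rw [sum_const, nsmul_eq_mul, mul_one, filter_filter]
        congr 2
        apply filter_congr
        intro n _
        simp only [Nat.dvd_iff_mod_eq_zero]
      rw [h3]
      exact h)
  have e2 : ∑ i ∈ ((Icc 1 y).filter (fun n => n ≡ c [MOD q])) with ∀ p ∈ T, ¬ p ∣ i, (1 : ℝ) =
      ((((Icc 1 y).filter (fun n => n ≡ c [MOD q])).filter (fun n => ∀ p ∈ T, ¬ p ∣ n)).card : ℝ) := by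
    rw [sum_const, nsmul_eq_mul, mul_one]
  rw [e2] at key
  refine key.trans ?_
  have h4 : ∑ j ∈ range (r + 1), ∑ S ∈ T.powersetCard j, (1 : ℝ) ≤ ((z : ℝ) + 1) ^ r := by
    have h5 := card_small T r
    have h6 : ∑ j ∈ range (r + 1), ∑ S ∈ T.powersetCard j, (1 : ℝ) = ((∑ j ∈ range (r + 1), (T.powersetCard j).card : ℕ) : ℝ) := by
      push_cast
      apply sum_congr rfl
      intro j _
      rw [sum_const, nsmul_eq_mul, mul_one]
    rw [h6]
    refine h5.trans ?_
    have h7 : (T.card : ℝ) ≤ z := by exact_mod_cast (card_le_card hTz).trans (card_pz_le z)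
    gcongr
  have h5 : es (fun p => 1 / (p : ℝ)) T r ≤ Real.exp (3 * (1 + Real.log z) - r) := by
    refine (es_le (fun p _ => by positivity) r).trans ?_
    apply Real.exp_le_exp.2
    have h6 : ∑ p ∈ T, 1 / (p : ℝ) ≤ ∑ p ∈ pz z, 1 / (p : ℝ) :=
      sum_le_sum_of_subset_of_nonneg hTz (fun _ _ _ => by positivity)
    have := sum_pz_le z
    linarith
  have h6 : (y : ℝ) / q ≤ y := div_le_self (Nat.cast_nonneg _) (by exact_mod_cast hq)
  have h7 : 2 * ((y : ℝ) / q) * es (fun p => 1 / (p : ℝ)) T r ≤ 2 * y * Real.exp (3 * (1 + Real.log z) - r) := by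
    have h8 : 0 ≤ es (fun p => 1 / (p : ℝ)) T r := es_nonneg (fun p _ => by positivity) r
    gcongr
  linarith

/-- sums of the model in arbitrary progressions -/
theorem lamz_ap2 (E U : ℕ) : ∃ N0 : ℕ, ∀ N : ℕ, N0 ≤ N → ∀ z : ℕ, 1 ≤ z → (z : ℝ) ≤ Real.log N ^ E →
    ∀ q : ℕ, 1 ≤ q → ∀ c y : ℕ, y ≤ N →
    |∑ n ∈ (Icc 1 y).filter (fun n => n ≡ c [MOD q]), lamz z n -
      (if Cop z q c then (y : ℝ) * kap z q else 0)| ≤ N / Real.log N ^ U := by
  obtain ⟨N0, h0⟩ := choice 1 E (U + E + 1) 2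
  obtain ⟨n1, h1⟩ := ev_log' (U + E + 1) 1
  obtain ⟨n2, h2⟩ := ev_L' 3
  refine ⟨max (max N0 n1) (max n2 1), fun N hN z hz hzE q hq c y hy => ?_⟩
  have a0 := h0 N (le_trans (le_trans (le_max_left _ _) (le_max_left _ _)) hN) z hzE
  have a1 := h1 N (le_trans (le_trans (le_max_right _ _) (le_max_left _ _)) hN)
  have hL := h2 N (le_trans (le_trans (le_max_left _ _) (le_max_right _ _)) hN)
  have hN1 : 1 ≤ N := le_trans (le_trans (le_max_right _ _) (le_max_right _ _)) hN
  have hNr : (1 : ℝ) ≤ N := by exact_mod_cast hN1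
  have hN0' : (0 : ℝ) < N := by linarith
  set L := Real.log N with hLd
  have hL0 : 0 < L := by linarith
  have hVinv := Vz_inv_le z hz
  have hV0 : 0 < (Vz z)⁻¹ := inv_pos.2 (Vz_pos z)
  obtain ⟨r, hr1, hr2, _⟩ := a0
  by_cases hc : Cop z q c
  · rw [if_pos hc]
    have h3 := rough_ap2 z q c y r hq hc
    have h4 : ∑ n ∈ (Icc 1 y).filter (fun n => n ≡ c [MOD q]), lamz z n =
        (Vz z)⁻¹ * ((((Icc 1 y).filter (fun n => n ≡ c [MOD q])).filter (fun n => ∀ p ∈ pz z, ¬ p ∣ n)).card : ℝ) := by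
      unfold lamz
      rw [← sum_filter, sum_const, nsmul_eq_mul, mul_comm]
    rw [h4]
    have h5 : (Vz z)⁻¹ * ((((Icc 1 y).filter (fun n => n ≡ c [MOD q])).filter (fun n => ∀ p ∈ pz z, ¬ p ∣ n)).card : ℝ) -
        (y : ℝ) * kap z q = (Vz z)⁻¹ * (((((Icc 1 y).filter (fun n => n ≡ c [MOD q])).filter (fun n => ∀ p ∈ pz z, ¬ p ∣ n)).card : ℝ) -
        (y : ℝ) / q * ∏ p ∈ (pz z).filter (fun p => ¬ p ∣ q), (1 - 1 / (p : ℝ))) := by
      unfold kap
      ring
    rw [h5, abs_mul, abs_of_pos hV0]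
    have h6 : ((z : ℝ) + 1) ^ r ≤ √N := by
      rw [← Real.sqrt_sq (by positivity : (0 : ℝ) ≤ ((z : ℝ) + 1) ^ r)]
      exact Real.sqrt_le_sqrt hr2
    have h7 : Real.exp (3 * (1 + Real.log z) - r) ≤ 1 / L ^ (U + E + 1) := by
      refine le_trans (le_of_eq ?_) hr1
      push_cast
      ring_nf
    have hyr : (y : ℝ) ≤ N := by exact_mod_cast hy
    have h8 : √(N : ℝ) ≤ N / L ^ (U + E + 1) := by
      rw [le_div_iff₀ (by positivity)]
      rw [one_mul] at a1
      calc √(N : ℝ) * L ^ (U + E + 1) ≤ √(N : ℝ) * √(N : ℝ) := by gcongr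
        _ = N := Real.mul_self_sqrt hN0'.le
    calc (Vz z)⁻¹ * |((((Icc 1 y).filter (fun n => n ≡ c [MOD q])).filter (fun n => ∀ p ∈ pz z, ¬ p ∣ n)).card : ℝ) -
        (y : ℝ) / q * ∏ p ∈ (pz z).filter (fun p => ¬ p ∣ q), (1 - 1 / (p : ℝ))| ≤ L ^ E * (N / L ^ (U + E + 1) + 2 * N * (1 / L ^ (U + E + 1))) := by
          apply mul_le_mul (hVinv.trans hzE) _ (abs_nonneg _) (by positivity)
          refine h3.trans ?_
          apply add_le_add (h6.trans h8)
          gcongr
      _ = 3 / L * (N / L ^ U) := by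
          field_simp
          ring
      _ ≤ 1 * (N / L ^ U) := by
          apply mul_le_mul_of_nonneg_right _ (by positivity)
          rw [div_le_one hL0]
          exact hL
      _ = N / L ^ U := one_mul _
  · rw [if_neg hc, sub_zero]
    have h3 : ∑ n ∈ (Icc 1 y).filter (fun n => n ≡ c [MOD q]), lamz z n = 0 := by
      apply sum_eq_zero
      intro n hn
      rw [mem_filter] at hn
      unfold lamz
      rw [if_neg]
      intro h
      unfold Cop at hc
      push Not at hc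
      obtain ⟨p, hp, hpq, hpc⟩ := hc
      exact h p hp ((hn.2.dvd_iff hpq).2 hpc)
    rw [h3, abs_zero]
    positivity

lemma periodic_shift (F : ℕ → ℂ) (q : ℕ) (hF : ∀ c, F (c + q) = F c) (s : ℕ) :
    ∑ c ∈ range q, F (c + s) = ∑ c ∈ range q, F c := by
  induction s with
  | zero => simp
  | succ s ih =>
    rw [← ih]
    have h1 : ∑ c ∈ range q, F (c + (s + 1)) = ∑ c ∈ range q, F ((c + 1) + s) := by
      apply sum_congr rfl; intro c _; congr 1; ring
    rw [h1]
    have h2 := sum_range_succ (fun c => F (c + s)) q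
    have h3 := sum_range_succ' (fun c => F (c + s)) q
    rw [h3] at h2
    have h4 : F (q + s) = F (0 + s) := by rw [add_comm q s, hF, zero_add]
    rw [h4] at h2
    exact add_right_cancel h2

lemma periodic_shift' (F : ℕ → ℝ) (q : ℕ) (hF : ∀ c, F (c + q) = F c) (s : ℕ) :
    ∑ c ∈ range q, F (c + s) = ∑ c ∈ range q, F c := by
  have h := periodic_shift (fun c => (F c : ℂ)) q (fun c => by simp only [hF]) s
  exact_mod_cast h

/-- the indicator function of `Cop` -/
noncomputable def ic (z q c : ℕ) : ℝ := if Cop z q c then 1 else 0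

lemma ic_periodic (z q c : ℕ) : ic z q (c + q) = ic z q c := by
  unfold ic
  have : Cop z q (c + q) ↔ Cop z q c := by
    unfold Cop
    refine forall₂_congr fun p _ => forall_congr' fun hpq => ?_
    rw [Nat.dvd_add_left hpq]
  simp only [this]

lemma ee_zero' : ee 0 = 1 := by unfold ee; simp

lemma full_zero (p : ℕ) (hp : p.Prime) (b : ℤ) (hb : ¬ (p : ℤ) ∣ b) :
    ∑ j ∈ range p, ee ((j : ℝ) * ((b : ℝ) / p)) = 0 := by
  have h := orth p hp.one_lt.le b
  rw [if_neg hb] at h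
  exact h

/-- the sum over one class modulo `q / p` -/
lemma class_sum (z t p c : ℕ) (hp : p.Prime) (ht : 1 ≤ t) (b : ℤ) (hb : ¬ (p : ℤ) ∣ b) :
    ‖∑ j ∈ range p, ((ic z (p * t) (c + t * j) : ℝ) : ℂ) * ee (((c + t * j : ℕ) : ℝ) * ((b : ℝ) / ((p * t : ℕ) : ℝ)))‖ * ((p : ℝ) - 1) ≤
      ∑ j ∈ range p, ic z (p * t) (c + t * j) := by
  have hp0 : (0 : ℝ) < p := by exact_mod_cast hp.pos
  have ht0 : (0 : ℝ) < t := by exact_mod_cast ht
  have hee : ∀ j : ℕ, ee (((c + t * j : ℕ) : ℝ) * ((b : ℝ) / ((p * t : ℕ) : ℝ))) =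
      ee ((c : ℝ) * ((b : ℝ) / ((p * t : ℕ) : ℝ))) * ee ((j : ℝ) * ((b : ℝ) / p)) := by
    intro j
    rw [← ee_add]
    congr 1
    push_cast
    field_simp
  by_cases hA : ∀ p' ∈ pz z, p' ∣ p * t → p' ≠ p → ¬ p' ∣ c
  · -- `ic` only depends on `p`
    have hic : ∀ j : ℕ, ic z (p * t) (c + t * j) = if p ∈ pz z ∧ p ∣ c + t * j then 0 else 1 := by
      intro j
      unfold ic
      by_cases h : p ∈ pz z ∧ p ∣ c + t * j
      · rw [if_pos h, if_neg]
        intro h2
        exact h2 p h.1 (Dvd.intro _ rfl) h.2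
      · rw [if_neg h, if_pos]
        intro p' hp' hq hd
        by_cases hpp : p' = p
        · exact h ⟨hpp ▸ hp', hpp ▸ hd⟩
        · have h3 : p' ∣ t := by
            rcases (mem_pz.1 hp').2.dvd_mul.1 hq with h4 | h4
            · exact absurd ((Nat.prime_dvd_prime_iff_eq (mem_pz.1 hp').2 hp).1 h4) hpp
            · exact h4
          exact hA p' hp' hq hpp ((Nat.dvd_add_left (h3.mul_right j)).1 hd)
    by_cases hpz : p ∈ pz z
    · by_cases hpt : p ∣ t
      · -- no dependence on j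
        have hic2 : ∀ j : ℕ, ic z (p * t) (c + t * j) = if p ∣ c then 0 else 1 := by
          intro j
          rw [hic j]
          have : p ∣ c + t * j ↔ p ∣ c := Nat.dvd_add_left (hpt.mul_right j)
          simp only [hpz, true_and, this]
        have h1 : ∑ j ∈ range p, ((ic z (p * t) (c + t * j) : ℝ) : ℂ) * ee (((c + t * j : ℕ) : ℝ) * ((b : ℝ) / ((p * t : ℕ) : ℝ))) = 0 := by
          have h2 : ∀ j ∈ range p, ((ic z (p * t) (c + t * j) : ℝ) : ℂ) * ee (((c + t * j : ℕ) : ℝ) * ((b : ℝ) / ((p * t : ℕ) : ℝ))) =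
              (((if p ∣ c then 0 else 1 : ℝ) : ℂ) * ee ((c : ℝ) * ((b : ℝ) / ((p * t : ℕ) : ℝ)))) * ee ((j : ℝ) * ((b : ℝ) / p)) := by
            intro j _
            rw [hic2 j, hee j]
            ring
          rw [sum_congr rfl h2, ← mul_sum, full_zero p hp b hb, mul_zero]
        rw [h1, norm_zero, zero_mul]
        exact sum_nonneg fun j _ => by unfold ic; split_ifs <;> norm_num
      · -- exactly one bad `j`
        have hcop : Nat.Coprime t p := (Nat.coprime_comm.1 ((Nat.Prime.coprime_iff_not_dvd hp).2 hpt))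
        obtain ⟨j0, hj0, hj0'⟩ : ∃ j0 ∈ range p, ∀ j ∈ range p, (p ∣ c + t * j ↔ j = j0) := by
          -- solve the congruence
          obtain ⟨m, hm⟩ := Nat.exists_mul_mod_eq_one_of_coprime hcop hp.one_lt
          have hcong : ∀ j : ℕ, p ∣ c + t * j ↔ ((j : ℕ) : ZMod p) = -((m : ℕ) : ZMod p) * (c : ZMod p) := by
            intro j
            have hm' : ((t : ℕ) : ZMod p) * (m : ZMod p) = 1 := by
              have : ((t * m : ℕ) : ZMod p) = ((1 : ℕ) : ZMod p) := by
                rw [ZMod.natCast_eq_natCast_iff]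
                unfold Nat.ModEq
                rw [hm.2, Nat.mod_eq_of_lt hp.one_lt]
              push_cast at this
              exact this
            rw [← ZMod.natCast_eq_zero_iff]
            push_cast
            constructor
            · intro h
              have h2 : (m : ZMod p) * ((c : ZMod p) + t * j) = 0 := by rw [h, mul_zero]
              linear_combination h2 + (-(j : ZMod p)) * hm'
            · intro h
              rw [h]
              linear_combination (-(c : ZMod p)) * hm'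
          haveI : NeZero p := ⟨hp.ne_zero⟩
          refine ⟨(-((m : ℕ) : ZMod p) * (c : ZMod p)).val, mem_range.2 (ZMod.val_lt _), fun j hj => ?_⟩
          rw [hcong j]
          constructor
          · intro h
            rw [← h, ZMod.val_natCast, Nat.mod_eq_of_lt (mem_range.1 hj)]
          · intro h
            rw [h, ZMod.natCast_val, ZMod.cast_id]
        have hic2 : ∀ j ∈ range p, ic z (p * t) (c + t * j) = if j = j0 then 0 else 1 := by
          intro j hj
          rw [hic j]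
          simp only [hpz, true_and, hj0' j hj]
        have h1 : ∑ j ∈ range p, ic z (p * t) (c + t * j) = (p : ℝ) - 1 := by
          rw [sum_congr rfl hic2]
          have h2 : ∀ j ∈ range p, (if j = j0 then (0 : ℝ) else 1) = 1 - (if j = j0 then 1 else 0) := by
            intro j _; split_ifs <;> norm_num
          rw [sum_congr rfl h2, sum_sub_distrib, sum_ite_eq' (range p) j0, if_pos hj0]
          simp
        rw [h1]
        have h3 : ∑ j ∈ range p, ((ic z (p * t) (c + t * j) : ℝ) : ℂ) * ee (((c + t * j : ℕ) : ℝ) * ((b : ℝ) / ((p * t : ℕ) : ℝ))) =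
            - (ee ((c : ℝ) * ((b : ℝ) / ((p * t : ℕ) : ℝ))) * ee ((j0 : ℝ) * ((b : ℝ) / p))) := by
          have h4 : ∀ j ∈ range p, ((ic z (p * t) (c + t * j) : ℝ) : ℂ) * ee (((c + t * j : ℕ) : ℝ) * ((b : ℝ) / ((p * t : ℕ) : ℝ))) =
              ee ((c : ℝ) * ((b : ℝ) / ((p * t : ℕ) : ℝ))) * ee ((j : ℝ) * ((b : ℝ) / p)) -
              (if j = j0 then ee ((c : ℝ) * ((b : ℝ) / ((p * t : ℕ) : ℝ))) * ee ((j : ℝ) * ((b : ℝ) / p)) else 0) := by
            intro j hj
            rw [hic2 j hj, hee j]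
            by_cases h : j = j0
            · simp [h]
            · simp [h]
          rw [sum_congr rfl h4, sum_sub_distrib, ← mul_sum, full_zero p hp b hb, mul_zero, sum_ite_eq' (range p) j0, if_pos hj0]
          ring
        rw [h3, norm_neg, norm_mul, norm_ee, norm_ee]
        linarith
    · have hic2 : ∀ j : ℕ, ic z (p * t) (c + t * j) = 1 := by
        intro j
        rw [hic j, if_neg]
        exact fun h => hpz h.1
      have h1 : ∑ j ∈ range p, ((ic z (p * t) (c + t * j) : ℝ) : ℂ) * ee (((c + t * j : ℕ) : ℝ) * ((b : ℝ) / ((p * t : ℕ) : ℝ))) = 0 := by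
        have h2 : ∀ j ∈ range p, ((ic z (p * t) (c + t * j) : ℝ) : ℂ) * ee (((c + t * j : ℕ) : ℝ) * ((b : ℝ) / ((p * t : ℕ) : ℝ))) =
            ee ((c : ℝ) * ((b : ℝ) / ((p * t : ℕ) : ℝ))) * ee ((j : ℝ) * ((b : ℝ) / p)) := by
          intro j _
          rw [hic2 j, hee j]
          push_cast
          ring
        rw [sum_congr rfl h2, ← mul_sum, full_zero p hp b hb, mul_zero]
      rw [h1, norm_zero, zero_mul]
      exact sum_nonneg fun j _ => by rw [hic2]; norm_num
  · push Not at hA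
    obtain ⟨p', hp', hq, hpp, hd⟩ := hA
    have h3 : p' ∣ t := by
      rcases (mem_pz.1 hp').2.dvd_mul.1 hq with h4 | h4
      · exact absurd ((Nat.prime_dvd_prime_iff_eq (mem_pz.1 hp').2 hp).1 h4) hpp
      · exact h4
    have hic2 : ∀ j : ℕ, ic z (p * t) (c + t * j) = 0 := by
      intro j
      unfold ic
      rw [if_neg]
      intro h
      exact h p' hp' hq (dvd_add hd (h3.mul_right j))
    simp only [hic2]
    simp

/-- the exponential sum over the residues prime to the small divisors of `q` -/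
lemma ramanujan_le (z q p : ℕ) (hq : 1 ≤ q) (hp : p.Prime) (hpq : p ∣ q) (b : ℤ) (hb : ¬ (p : ℤ) ∣ b) :
    ‖∑ c ∈ range q, ((ic z q c : ℝ) : ℂ) * ee ((c : ℝ) * ((b : ℝ) / q))‖ * ((p : ℝ) - 1) ≤ ∑ c ∈ range q, ic z q c := by
  obtain ⟨t, rfl⟩ := hpq
  have ht : 1 ≤ t := by
    rcases Nat.eq_zero_or_pos t with h | h
    · rw [h] at hq; simp at hq
    · exact h
  have hp0 : (0 : ℝ) < p := by exact_mod_cast hp.pos
  have hp1 : (0 : ℝ) ≤ (p : ℝ) - 1 := by
    have : (1 : ℝ) ≤ p := by exact_mod_cast hp.one_lt.le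
    linarith
  have hq0 : (0 : ℝ) < ((p * t : ℕ) : ℝ) := by exact_mod_cast hq
  set F : ℕ → ℂ := fun c => ((ic z (p * t) c : ℝ) : ℂ) * ee ((c : ℝ) * ((b : ℝ) / ((p * t : ℕ) : ℝ))) with hF
  have hFp : ∀ c, F (c + p * t) = F c := by
    intro c
    simp only [hF]
    rw [ic_periodic]
    congr 1
    have : ((c + p * t : ℕ) : ℝ) * ((b : ℝ) / ((p * t : ℕ) : ℝ)) = (c : ℝ) * ((b : ℝ) / ((p * t : ℕ) : ℝ)) + (b : ℤ) := by
      rw [Nat.cast_add]
      field_simp
    rw [this, ee_add_int]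
  have h1 : (p : ℂ) * ∑ c ∈ range (p * t), F c = ∑ c ∈ range (p * t), ∑ j ∈ range p, F (c + t * j) := by
    rw [sum_comm, sum_congr rfl fun j _ => periodic_shift F (p * t) hFp (t * j), sum_const, card_range, nsmul_eq_mul]
  have h2 : ∑ c ∈ range (p * t), ∑ j ∈ range p, ic z (p * t) (c + t * j) = p * ∑ c ∈ range (p * t), ic z (p * t) c := by
    rw [sum_comm, sum_congr rfl fun j _ => periodic_shift' (ic z (p * t)) (p * t) (ic_periodic z (p * t)) (t * j), sum_const,
      card_range, nsmul_eq_mul]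
  have h3 : (p : ℝ) * ‖∑ c ∈ range (p * t), F c‖ = ‖∑ c ∈ range (p * t), ∑ j ∈ range p, F (c + t * j)‖ := by
    rw [← h1, norm_mul, Complex.norm_natCast]
  have h4 : (p : ℝ) * (‖∑ c ∈ range (p * t), F c‖ * ((p : ℝ) - 1)) ≤ p * ∑ c ∈ range (p * t), ic z (p * t) c := by
    rw [← mul_assoc, h3, ← h2]
    calc _ ≤ (∑ c ∈ range (p * t), ‖∑ j ∈ range p, F (c + t * j)‖) * ((p : ℝ) - 1) :=
          mul_le_mul_of_nonneg_right (norm_sum_le _ _) hp1
      _ = ∑ c ∈ range (p * t), ‖∑ j ∈ range p, F (c + t * j)‖ * ((p : ℝ) - 1) := by rw [sum_mul]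
      _ ≤ _ := sum_le_sum fun c _ => class_sum z t p c hp ht b hb
  exact le_of_mul_le_mul_left h4 hp0

end Pool.Agent.H68.GR
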