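import Mathlib
import Pool.Agent.H68.GR.Sup

set_option autoImplicit false
set_option linter.unusedVariables false

/-! Bilinear forms of a function with small exponential sums along linear forms. -/

namespace Pool.Agent.H68.GR
open Finset
open Pool.Agent.H373R2.T7
open Pool.Agent.H807R2.Dav

lemma parseval_inj {ι : Type*} (I : Finset ι) (C : ι → ℂ) (φ : ι → ℤ) (M : ℕ) (hM : 1 ≤ M) (hC : ∀ i ∈ I, ‖C i‖ ≤ 1)
    (hφ : ∀ i ∈ I, ∀ j ∈ I, (M : ℤ) ∣ φ i - φ j → i = j) :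
    ∑ t ∈ range M, ‖∑ i ∈ I, C i * ee ((t : ℝ) * ((φ i : ℝ) / M))‖ ^ 2 ≤ M * I.card := by
  classical
  have h1 := sq_expand I C φ M hM
  have h2 : ∑ i ∈ I, ∑ j ∈ I, C i * (starRingEnd ℂ) (C j) * (if (M : ℤ) ∣ φ i - φ j then (M : ℂ) else 0) =
      ∑ i ∈ I, (M : ℂ) * ((‖C i‖ ^ 2 : ℝ) : ℂ) := by
    apply sum_congr rfl
    intro i hi
    rw [sum_eq_single i]
    · rw [sub_self, if_pos (dvd_zero _), Complex.mul_conj']
      push_cast
      ring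
    · intro j hj hne
      rw [if_neg, mul_zero]
      intro hd
      exact hne (hφ i hi j hj hd).symm
    · intro h; exact absurd hi h
  rw [h2, ← mul_sum] at h1
  have h3 : (((∑ t ∈ range M, ‖∑ i ∈ I, C i * ee ((t : ℝ) * ((φ i : ℝ) / M))‖ ^ 2 : ℝ)) : ℂ) =
      ((M * ∑ i ∈ I, ‖C i‖ ^ 2 : ℝ) : ℂ) := by
    rw [h1]
    push_cast
    rfl
  have h4 : (∑ t ∈ range M, ‖∑ i ∈ I, C i * ee ((t : ℝ) * ((φ i : ℝ) / M))‖ ^ 2 : ℝ) = M * ∑ i ∈ I, ‖C i‖ ^ 2 := by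
    exact_mod_cast h3
  rw [h4]
  apply mul_le_mul_of_nonneg_left _ (Nat.cast_nonneg _)
  have h5 : ∀ i ∈ I, ‖C i‖ ^ 2 ≤ 1 := fun i hi => pow_le_one₀ (norm_nonneg _) (hC i hi)
  refine (sum_le_sum h5).trans ?_
  simp

theorem bil (N K a b c : ℕ) (ha : 1 ≤ a) (hb : 1 ≤ b) (hK : ∀ x ∈ Icc 1 N, ∀ y ∈ Icc 1 N, a * x + b * y + c ≤ K)
    (f : ℕ → ℝ) (η : ℝ) (hsup : ∀ α : ℝ, ‖∑ n ∈ Icc 1 K, ((f n : ℝ) : ℂ) * ee ((n : ℝ) * α)‖ ≤ η)
    (F G : ℕ → ℂ) (hF : ∀ x, ‖F x‖ ≤ 1) (hG : ∀ x, ‖G x‖ ≤ 1) :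
    ‖∑ x ∈ Icc 1 N, ∑ y ∈ Icc 1 N, F x * G y * ((f (a * x + b * y + c) : ℝ) : ℂ)‖ ≤ η * N := by
  have hη : 0 ≤ η := (norm_nonneg _).trans (hsup 0)
  set M : ℕ := K + 1 with hM
  have hM1 : 1 ≤ M := by omega
  have hM0 : (0 : ℝ) < M := by exact_mod_cast hM1
  have hMc : (M : ℂ) ≠ 0 := by exact_mod_cast hM0.ne'
  set A : ℕ → ℂ := fun t => ∑ x ∈ Icc 1 N, F x * ee ((t : ℝ) * ((((a * x : ℕ) : ℤ) : ℝ) / M)) with hA
  set B : ℕ → ℂ := fun t => ∑ y ∈ Icc 1 N, G y * ee ((t : ℝ) * ((((b * y : ℕ) : ℤ) : ℝ) / M)) with hB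
  set C : ℕ → ℂ := fun t => ∑ n ∈ Icc 1 K, ((f n : ℝ) : ℂ) * ee ((n : ℝ) * (-(t : ℝ) / M)) with hC
  have hval : ∀ x ∈ Icc 1 N, ∀ y ∈ Icc 1 N, ((f (a * x + b * y + c) : ℝ) : ℂ) =
      (1 / (M : ℂ)) * ∑ t ∈ range M, ∑ n ∈ Icc 1 K, ((f n : ℝ) : ℂ) *
        ee ((t : ℝ) * (((((a * x + b * y + c : ℕ) : ℤ) - (n : ℤ) : ℤ) : ℝ) / M)) := by
    intro x hx y hy
    rw [sum_comm]
    have h1 : ∀ n ∈ Icc 1 K, ∑ t ∈ range M, ((f n : ℝ) : ℂ) *
        ee ((t : ℝ) * (((((a * x + b * y + c : ℕ) : ℤ) - (n : ℤ) : ℤ) : ℝ) / M)) =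
        if n = a * x + b * y + c then (M : ℂ) * ((f n : ℝ) : ℂ) else 0 := by
      intro n hn
      rw [← mul_sum, orth M hM1]
      have hxy := hK x hx y hy
      rw [mem_Icc] at hn hx hy
      by_cases h : n = a * x + b * y + c
      · rw [if_pos h, if_pos]
        · ring
        · rw [h]; simp
      · rw [if_neg h, if_neg, mul_zero]
        intro hd
        have h4 : |((a * x + b * y + c : ℕ) : ℤ) - (n : ℤ)| < M := by
          rw [abs_lt]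
          constructor <;> omega
        have := Int.eq_zero_of_abs_lt_dvd hd h4
        apply h
        omega
    rw [sum_congr rfl h1, sum_ite_eq' (Icc 1 K)]
    have hmem : a * x + b * y + c ∈ Icc 1 K := by
      have hxy := hK x hx y hy
      rw [mem_Icc] at hx hy ⊢
      have : 1 * 1 ≤ a * x := Nat.mul_le_mul ha hx.1
      omega
    rw [if_pos hmem]
    field_simp
  have hsum : ∑ x ∈ Icc 1 N, ∑ y ∈ Icc 1 N, F x * G y * ((f (a * x + b * y + c) : ℝ) : ℂ) =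
      (1 / (M : ℂ)) * ∑ t ∈ range M, ee ((t : ℝ) * ((c : ℝ) / M)) * (A t * B t * C t) := by
    have h1 : ∀ x ∈ Icc 1 N, ∀ y ∈ Icc 1 N, F x * G y * ((f (a * x + b * y + c) : ℝ) : ℂ) =
        (1 / (M : ℂ)) * ∑ t ∈ range M, ee ((t : ℝ) * ((c : ℝ) / M)) *
          ((F x * ee ((t : ℝ) * ((((a * x : ℕ) : ℤ) : ℝ) / M))) * (G y * ee ((t : ℝ) * ((((b * y : ℕ) : ℤ) : ℝ) / M))) * C t) := by
      intro x hx y hy
      rw [hval x hx y hy, mul_left_comm, mul_sum]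
      congr 1
      apply sum_congr rfl
      intro t _
      simp only [hC]
      rw [mul_sum, mul_sum, mul_sum]
      apply sum_congr rfl
      intro n _
      have e : ee ((t : ℝ) * (((((a * x + b * y + c : ℕ) : ℤ) - (n : ℤ) : ℤ) : ℝ) / M)) =
          ee ((t : ℝ) * ((c : ℝ) / M)) * ee ((t : ℝ) * ((((a * x : ℕ) : ℤ) : ℝ) / M)) *
          ee ((t : ℝ) * ((((b * y : ℕ) : ℤ) : ℝ) / M)) * ee ((n : ℝ) * (-(t : ℝ) / M)) := by
        rw [← ee_add, ← ee_add, ← ee_add]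
        congr 1
        push_cast
        ring
      rw [e]
      ring
    rw [sum_congr rfl fun x hx => sum_congr rfl fun y hy => h1 x hx y hy]
    simp only [← mul_sum]
    congr 1
    rw [sum_congr rfl fun x _ => sum_comm, sum_comm]
    apply sum_congr rfl
    intro t _
    simp only [← mul_sum, ← sum_mul, hA, hB]
  rw [hsum, norm_mul]
  have hAp : ∑ t ∈ range M, ‖A t‖ ^ 2 ≤ M * N := by
    have h := parseval_inj (Icc 1 N) F (fun x => ((a * x : ℕ) : ℤ)) M hM1 (fun x _ => hF x) (by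
      intro i hi j hj hd
      have h1 := hK i hi i hi
      have h2 := hK j hj j hj
      rw [mem_Icc] at hi hj
      have h4 : |((a * i : ℕ) : ℤ) - ((a * j : ℕ) : ℤ)| < M := by
        rw [abs_lt]
        constructor <;> omega
      have h5 := Int.eq_zero_of_abs_lt_dvd hd h4
      have h6 : a * i = a * j := by omega
      exact Nat.eq_of_mul_eq_mul_left (by omega) h6)
    rw [Nat.card_Icc, Nat.add_sub_cancel] at h
    exact h
  have hBp : ∑ t ∈ range M, ‖B t‖ ^ 2 ≤ M * N := by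
    have h := parseval_inj (Icc 1 N) G (fun x => ((b * x : ℕ) : ℤ)) M hM1 (fun x _ => hG x) (by
      intro i hi j hj hd
      have h1 := hK i hi i hi
      have h2 := hK j hj j hj
      rw [mem_Icc] at hi hj
      have h4 : |((b * i : ℕ) : ℤ) - ((b * j : ℕ) : ℤ)| < M := by
        rw [abs_lt]
        constructor <;> omega
      have h5 := Int.eq_zero_of_abs_lt_dvd hd h4
      have h6 : b * i = b * j := by omega
      exact Nat.eq_of_mul_eq_mul_left (by omega) h6)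
    rw [Nat.card_Icc, Nat.add_sub_cancel] at h
    exact h
  have h1 : ‖(1 / (M : ℂ))‖ = 1 / M := by rw [norm_div, norm_one, Complex.norm_natCast]
  rw [h1]
  have h2 : ‖∑ t ∈ range M, ee ((t : ℝ) * ((c : ℝ) / M)) * (A t * B t * C t)‖ ≤ η * (M * N) := by
    refine (norm_sum_le _ _).trans ?_
    have h3 : ∀ t ∈ range M, ‖ee ((t : ℝ) * ((c : ℝ) / M)) * (A t * B t * C t)‖ ≤ η * ((‖A t‖ ^ 2 + ‖B t‖ ^ 2) / 2) := by
      intro t _
      rw [norm_mul, norm_ee, one_mul, norm_mul, norm_mul]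
      have h4 : ‖C t‖ ≤ η := hsup _
      have h5 : ‖A t‖ * ‖B t‖ ≤ (‖A t‖ ^ 2 + ‖B t‖ ^ 2) / 2 := by nlinarith [sq_nonneg (‖A t‖ - ‖B t‖)]
      calc ‖A t‖ * ‖B t‖ * ‖C t‖ ≤ (‖A t‖ ^ 2 + ‖B t‖ ^ 2) / 2 * η :=
            mul_le_mul h5 h4 (norm_nonneg _) (by positivity)
        _ = _ := by ring
    refine (sum_le_sum h3).trans ?_
    rw [← mul_sum, ← sum_div, sum_add_distrib]
    apply mul_le_mul_of_nonneg_left _ hη
    linarith
  calc 1 / (M : ℝ) * ‖∑ t ∈ range M, ee ((t : ℝ) * ((c : ℝ) / M)) * (A t * B t * C t)‖ ≤ 1 / M * (η * (M * N)) := by gcongr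
    _ = η * N := by field_simp

end Pool.Agent.H68.GR
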