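import Mathlib
import Pool.Agent.H68.GR.Sup

set_option autoImplicit false
set_option linter.unusedVariables false

/-! The exponential sum of the difference of two sieve models. -/

namespace Pool.Agent.H68.GR
open Finset
open Pool.Agent.H373R2.T7
open Pool.Agent.H807R2.Dav

lemma class_decomp (f : ℕ → ℝ) (y q : ℕ) (hq : 1 ≤ q) (b : ℤ) :
    ∑ n ∈ Icc 1 y, ((f n : ℝ) : ℂ) * ee (n * ((b : ℝ) / q)) =
      ∑ c ∈ range q, (((∑ n ∈ (Icc 1 y).filter (fun n => n ≡ c [MOD q]), f n : ℝ)) : ℂ) * ee (c * ((b : ℝ) / q)) := by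
  have hq0 : (q : ℝ) ≠ 0 := by
    have : (0 : ℝ) < q := by exact_mod_cast hq
    exact this.ne'
  rw [← sum_fiberwise_of_maps_to (s := Icc 1 y) (t := range q)
    (g := fun n => n % q) (fun n _ => mem_range.2 (Nat.mod_lt _ (by omega)))]
  apply sum_congr rfl
  intro c hc
  rw [mem_range] at hc
  push_cast
  rw [sum_mul]
  have h2 : (Icc 1 y).filter (fun n => n % q = c) = (Icc 1 y).filter (fun n => n ≡ c [MOD q]) := by
    apply filter_congr
    intro n _
    unfold Nat.ModEq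
    rw [Nat.mod_eq_of_lt hc]
  rw [h2]
  apply sum_congr rfl
  intro n hn
  rw [mem_filter] at hn
  have h3 : n % q = c := by
    have h4 := hn.2
    unfold Nat.ModEq at h4
    rwa [Nat.mod_eq_of_lt hc] at h4
  obtain ⟨k, hk⟩ : ∃ k : ℕ, n = c + q * k := by
    have h6 := Nat.mod_add_div n q
    rw [h3] at h6
    exact ⟨_, h6.symm⟩
  congr 1
  have h6 : (n : ℝ) * ((b : ℝ) / q) = c * ((b : ℝ) / q) + (((b * (k : ℤ) : ℤ)) : ℝ) := by
    rw [hk]
    push_cast
    field_simp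
  rw [h6, ee_add_int]

/-- the coefficient of the model at the rational `b / q` -/
noncomputable def rho (z q : ℕ) (b : ℤ) : ℂ := (kap z q : ℂ) * ∑ c ∈ range q, ((ic z q c : ℝ) : ℂ) * ee ((c : ℝ) * ((b : ℝ) / q))

lemma ic_nonneg (z q c : ℕ) : 0 ≤ ic z q c := by unfold ic; split_ifs <;> norm_num

lemma rat_sum (z q : ℕ) (hq : 1 ≤ q) (b : ℤ) (y : ℕ) (δ : ℝ)
    (h : ∀ c : ℕ, |∑ n ∈ (Icc 1 y).filter (fun n => n ≡ c [MOD q]), lamz z n -
      (if Cop z q c then (y : ℝ) * kap z q else 0)| ≤ δ) :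
    ‖∑ n ∈ Icc 1 y, ((lamz z n : ℝ) : ℂ) * ee (n * ((b : ℝ) / q)) - y * rho z q b‖ ≤ q * δ := by
  rw [class_decomp _ y q hq b]
  have h1 : (y : ℂ) * rho z q b = ∑ c ∈ range q, (((if Cop z q c then (y : ℝ) * kap z q else 0 : ℝ)) : ℂ) * ee ((c : ℝ) * ((b : ℝ) / q)) := by
    unfold rho
    rw [← mul_assoc, mul_sum]
    apply sum_congr rfl
    intro c _
    unfold ic
    split_ifs
    · push_cast; ring
    · simp
  rw [h1, ← sum_sub_distrib]
  refine (norm_sum_le _ _).trans ?_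
  have h2 : ∀ c ∈ range q, ‖(((∑ n ∈ (Icc 1 y).filter (fun n => n ≡ c [MOD q]), lamz z n : ℝ)) : ℂ) * ee (c * ((b : ℝ) / q)) -
      (((if Cop z q c then (y : ℝ) * kap z q else 0 : ℝ)) : ℂ) * ee ((c : ℝ) * ((b : ℝ) / q))‖ ≤ δ := by
    intro c _
    rw [← sub_mul, norm_mul, norm_ee, mul_one, ← Complex.ofReal_sub, Complex.norm_real, Real.norm_eq_abs]
    exact h c
  refine (sum_le_sum h2).trans ?_
  rw [sum_const, card_range, nsmul_eq_mul]

lemma mass_le (z q N : ℕ) (hz : 1 ≤ z) (hN : 1 ≤ N) (hq : 1 ≤ q) (δ : ℝ)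
    (h : ∀ c : ℕ, |∑ n ∈ (Icc 1 N).filter (fun n => n ≡ c [MOD q]), lamz z n -
      (if Cop z q c then (N : ℝ) * kap z q else 0)| ≤ δ)
    (h1 : ∑ n ∈ Icc 1 N, lamz z n ≤ N + δ) (h2 : (q + 1) * δ ≤ N) : kap z q * ∑ c ∈ range q, ic z q c ≤ 2 := by
  have hN0 : (0 : ℝ) < N := by exact_mod_cast hN
  have h3 : ∑ n ∈ Icc 1 N, lamz z n = ∑ c ∈ range q, ∑ n ∈ (Icc 1 N).filter (fun n => n ≡ c [MOD q]), lamz z n := by
    rw [← sum_fiberwise_of_maps_to (s := Icc 1 N) (t := range q)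
      (g := fun n => n % q) (fun n _ => mem_range.2 (Nat.mod_lt _ (by omega)))]
    apply sum_congr rfl
    intro c hc
    rw [mem_range] at hc
    apply sum_congr _ fun _ _ => rfl
    apply filter_congr
    intro n _
    unfold Nat.ModEq
    rw [Nat.mod_eq_of_lt hc]
  have h4 : ∑ c ∈ range q, ((N : ℝ) * kap z q * ic z q c - δ) ≤ ∑ n ∈ Icc 1 N, lamz z n := by
    rw [h3]
    apply sum_le_sum
    intro c _
    have h5 := (abs_le.1 (h c)).1
    unfold ic
    split_ifs at h5 ⊢ <;> linarith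
  rw [sum_sub_distrib, ← mul_sum, sum_const, card_range, nsmul_eq_mul] at h4
  have h5 : (N : ℝ) * (kap z q * ∑ c ∈ range q, ic z q c) ≤ N * 2 := by nlinarith
  exact le_of_mul_le_mul_left h5 hN0

lemma rho_le (z q w p N : ℕ) (hz : 1 ≤ z) (hw : 1 ≤ w) (hN : 1 ≤ N) (hq : 1 ≤ q) (b : ℤ) (hp : p.Prime) (hpq : p ∣ q)
    (hwp : w < p) (hb : ¬ (p : ℤ) ∣ b) (hmass : kap z q * ∑ c ∈ range q, ic z q c ≤ 2) :
    ‖rho z q b‖ ≤ 2 / w := by
  have hw0 : (0 : ℝ) < w := by exact_mod_cast hw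
  have h1 := ramanujan_le z q p hq hp hpq b hb
  have h2 : (w : ℝ) ≤ (p : ℝ) - 1 := by
    have : ((w + 1 : ℕ) : ℝ) ≤ p := by exact_mod_cast hwp
    push_cast at this
    linarith
  have hk := kap_nonneg z q
  unfold rho
  rw [norm_mul, Complex.norm_real, Real.norm_of_nonneg hk, le_div_iff₀ hw0]
  have h3 := norm_nonneg (∑ c ∈ range q, ((ic z q c : ℝ) : ℂ) * ee ((c : ℝ) * ((b : ℝ) / q)))
  calc kap z q * ‖∑ c ∈ range q, ((ic z q c : ℝ) : ℂ) * ee ((c : ℝ) * ((b : ℝ) / q))‖ * w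
      ≤ kap z q * ‖∑ c ∈ range q, ((ic z q c : ℝ) : ℂ) * ee ((c : ℝ) * ((b : ℝ) / q))‖ * ((p : ℝ) - 1) :=
        mul_le_mul_of_nonneg_left h2 (by positivity)
    _ = kap z q * (‖∑ c ∈ range q, ((ic z q c : ℝ) : ℂ) * ee ((c : ℝ) * ((b : ℝ) / q))‖ * ((p : ℝ) - 1)) := by ring
    _ ≤ kap z q * ∑ c ∈ range q, ic z q c := mul_le_mul_of_nonneg_left h1 hk
    _ ≤ 2 := hmass

lemma rho_same (w z q : ℕ) (hwz : w ≤ z) (h : ∀ p : ℕ, p.Prime → p ∣ q → p ≤ w) (b : ℤ) : rho z q b = rho w q b := by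
  have h1 : (pz z).filter (fun p => p ∣ q) = (pz w).filter (fun p => p ∣ q) := by
    ext p
    simp only [mem_filter, mem_pz]
    constructor
    · rintro ⟨⟨_, h2⟩, h3⟩; exact ⟨⟨h p h2 h3, h2⟩, h3⟩
    · rintro ⟨⟨h1, h2⟩, h3⟩; exact ⟨⟨h1.trans hwz, h2⟩, h3⟩
  have h2 : kap z q = kap w q := by rw [kap_eq, kap_eq, h1]
  have h3 : ∀ c, ic z q c = ic w q c := by
    intro c
    have : Cop z q c ↔ Cop w q c := by
      constructor
      · intro hh p hp hpq
        exact hh p (mem_pz.2 ⟨(mem_pz.1 hp).1.trans hwz, (mem_pz.1 hp).2⟩) hpq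
      · intro hh p hp hpq
        exact hh p (mem_pz.2 ⟨h p (mem_pz.1 hp).2 hpq, (mem_pz.1 hp).2⟩) hpq
    unfold ic
    simp only [this]
  unfold rho
  simp only [h2, h3]

/-- **The exponential sum of the difference of two sieve models.** -/
theorem sup_scale (E U : ℕ) : ∃ N0 : ℕ, ∀ N : ℕ, N0 ≤ N → ∀ w z : ℕ, 1 ≤ w → w ≤ z → (z : ℝ) ≤ Real.log N ^ E →
    ∀ α : ℝ, ‖∑ n ∈ Icc 1 N, ((lamz z n - lamz w n : ℝ) : ℂ) * ee ((n : ℝ) * α)‖ ≤ 4 * N / w + N / Real.log N ^ U := by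
  set B := U + 6 with hB
  obtain ⟨m2, hlz⟩ := lamz_minor E (U + 1)
  obtain ⟨m3, hap⟩ := lamz_ap2 E (2 * B + U + 1)
  obtain ⟨m4, hap1⟩ := lamz_ap E (2 * B + U + 1)
  obtain ⟨m5, h5⟩ := ev_log' B 2
  obtain ⟨m6, h6⟩ := ev_L' 20
  refine ⟨max (max m2 (max m3 m4)) (max (max m5 m6) 4), fun N hN w z hw hwz hz2 α => ?_⟩
  have hm2 : m2 ≤ N := le_trans (le_trans (le_max_left _ _) (le_max_left _ _)) hN
  have hm3 : m3 ≤ N := le_trans (le_trans (le_trans (le_max_left _ _) (le_max_right _ _)) (le_max_left _ _)) hN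
  have hm4 : m4 ≤ N := le_trans (le_trans (le_trans (le_max_right _ _) (le_max_right _ _)) (le_max_left _ _)) hN
  have a5 := h5 N (le_trans (le_trans (le_trans (le_max_left _ _) (le_max_left _ _)) (le_max_right _ _)) hN)
  have hL := h6 N (le_trans (le_trans (le_trans (le_max_right _ _) (le_max_left _ _)) (le_max_right _ _)) hN)
  have hN4 : 4 ≤ N := le_trans (le_trans (le_max_right _ _) (le_max_right _ _)) hN
  have hNr : (4 : ℝ) ≤ N := by exact_mod_cast hN4
  have hN0 : (0 : ℝ) < N := by linarith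
  have hz : 1 ≤ z := hw.trans hwz
  have hw2 : (w : ℝ) ≤ Real.log N ^ E := le_trans (by exact_mod_cast hwz) hz2
  have hw0 : (0 : ℝ) < w := by exact_mod_cast hw
  set L := Real.log N with hLd
  have hL0 : 0 < L := by linarith
  have hL1 : 1 ≤ L := by linarith
  have hLB1 : 1 ≤ L ^ B := one_le_pow₀ hL1
  have hLB0 : 0 < L ^ B := by positivity
  have hsN : √(N : ℝ) ≤ N := by
    rw [Real.sqrt_le_left (by positivity)]; nlinarith
  have h2LB : 2 * L ^ B ≤ N := a5.trans hsN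
  -- Dirichlet
  set Q : ℕ := ⌊(N : ℝ) / L ^ B⌋₊ with hQ
  have hNLB : 2 ≤ (N : ℝ) / L ^ B := by rw [le_div_iff₀ hLB0]; exact h2LB
  have hQpos : 0 < Q := by
    rw [hQ, Nat.floor_pos]
    linarith
  obtain ⟨r, hr1, hr2⟩ := Real.exists_rat_abs_sub_le_and_den_le α hQpos
  set q : ℕ := r.den with hq
  have hq1 : 1 ≤ q := r.den_pos
  have hq0 : (0 : ℝ) < q := by exact_mod_cast hq1
  have hrq : ((r : ℚ) : ℝ) = (r.num : ℝ) / q := by
    rw [hq]; exact_mod_cast (Rat.num_div_den r).symm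
  rw [hrq] at hr1
  have hcop : IsCoprime r.num (q : ℤ) := by
    rw [Int.isCoprime_iff_gcd_eq_one]
    have := r.reduced
    rw [Nat.Coprime] at this
    rw [Int.gcd]
    simpa using this
  have hqQ : (q : ℝ) ≤ N / L ^ B := by
    have h1 : (q : ℝ) ≤ Q := by exact_mod_cast hr2
    exact h1.trans (Nat.floor_le (by positivity))
  have hsplit : ∑ n ∈ Icc 1 N, ((lamz z n - lamz w n : ℝ) : ℂ) * ee ((n : ℝ) * α) =
      ∑ n ∈ Icc 1 N, ((lamz z n : ℝ) : ℂ) * ee ((n : ℝ) * α) -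
      ∑ n ∈ Icc 1 N, ((lamz w n : ℝ) : ℂ) * ee ((n : ℝ) * α) := by
    rw [← sum_sub_distrib]
    apply sum_congr rfl
    intro n _
    push_cast
    ring
  have hpos4 : 0 ≤ 4 * (N : ℝ) / w := by positivity
  rcases le_or_gt (L ^ B) (q : ℝ) with hqb | hqs
  · -- minor
    have hα : |α - (r.num : ℝ) / q| ≤ 1 / (q : ℝ) ^ 2 := by
      refine hr1.trans ?_
      rw [pow_two]
      apply one_div_le_one_div_of_le (by positivity)
      apply mul_le_mul_of_nonneg_right _ hq0.le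
      have h1 : (q : ℝ) ≤ Q := by exact_mod_cast hr2
      linarith
    have hB2 : L ^ (U + 1 + 5) ≤ L ^ B := pow_le_pow_right₀ hL1 (by omega)
    have h1 := hlz N hm2 w hw hw2 q (hB2.trans hqb) (hqQ.trans (div_le_div_of_nonneg_left hN0.le (by positivity) hB2)) r.num hcop α hα
    have h2 := hlz N hm2 z hz hz2 q (hB2.trans hqb) (hqQ.trans (div_le_div_of_nonneg_left hN0.le (by positivity) hB2)) r.num hcop α hα
    rw [hsplit]
    refine (norm_sub_le _ _).trans ((add_le_add h2 h1).trans ?_)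
    rw [← hLd]
    have h3 : (N : ℝ) / L ^ (U + 1) + N / L ^ (U + 1) ≤ N / L ^ U := by
      calc (N : ℝ) / L ^ (U + 1) + N / L ^ (U + 1) = 2 / L * (N / L ^ U) := by rw [pow_succ]; field_simp; ring
        _ ≤ 1 * (N / L ^ U) := by
            apply mul_le_mul_of_nonneg_right _ (by positivity)
            rw [div_le_one hL0]; linarith
        _ = _ := one_mul _
    linarith
  · -- major
    set δ : ℝ := N / L ^ (2 * B + U + 1) with hδ
    have hδ0 : 0 ≤ δ := by positivity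
    have hδq : ((q : ℝ) + 1) * δ ≤ N := by
      have h1 : (q : ℝ) + 1 ≤ L ^ (2 * B + U + 1) := by
        have h2 : (2 : ℝ) * L ^ B ≤ L ^ (2 * B + U + 1) := by
          have e : L ^ (2 * B + U + 1) = L ^ B * L ^ (B + U) * L := by rw [← pow_add, ← pow_succ]; congr 1; ring
          rw [e]
          have h3 : (1 : ℝ) ≤ L ^ (B + U) := one_le_pow₀ hL1
          nlinarith [mul_le_mul_of_nonneg_left h3 hLB0.le]
        linarith
      rw [hδ, ← mul_div_assoc, div_le_iff₀ (by positivity), mul_comm]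
      exact mul_le_mul_of_nonneg_left h1 hN0.le
    have key : ∀ z' : ℕ, 1 ≤ z' → (z' : ℝ) ≤ L ^ E → (∀ y : ℕ, y ≤ N →
        ‖∑ n ∈ Icc 1 y, ((lamz z' n : ℝ) : ℂ) * ee (n * ((r.num : ℝ) / q)) - y * rho z' q r.num‖ ≤ q * δ) ∧
        kap z' q * ∑ c ∈ range q, ic z' q c ≤ 2 := by
      intro z' hz' hz'2
      constructor
      · intro y hy
        exact rat_sum z' q hq1 r.num y δ (fun c => hap N hm3 z' hz' hz'2 q hq1 c y hy)
      · apply mass_le z' q N hz' (by omega) hq1 δ (fun c => hap N hm3 z' hz' hz'2 q hq1 c N le_rfl) _ hδq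
        have h1 := hap1 N hm4 z' hz' hz'2 1 le_rfl hz' 0 N le_rfl
        have h2 : (Icc 1 N).filter (fun n => n ≡ 0 [MOD 1]) = Icc 1 N := by
          apply filter_true_of_mem
          intro n _
          exact Nat.modEq_one
        rw [h2, if_pos (Nat.coprime_one_right 0), Nat.totient_one, Nat.cast_one, div_one] at h1
        have := (abs_le.1 h1).2
        linarith
    obtain ⟨kz1, kz2⟩ := key z hz hz2
    obtain ⟨kw1, kw2⟩ := key w hw hw2
    set R : ℂ := rho z q r.num - rho w q r.num with hR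
    have hRle : ‖R‖ ≤ 4 / w := by
      by_cases hex : ∃ p : ℕ, p.Prime ∧ p ∣ q ∧ w < p
      · obtain ⟨p, hp, hpq, hwp⟩ := hex
        have hb : ¬ (p : ℤ) ∣ r.num := by
          intro hd
          have h1 : IsUnit (p : ℤ) := hcop.isUnit_of_dvd' hd (by exact_mod_cast hpq)
          have h2 := Int.isUnit_iff.1 h1
          have := hp.one_lt
          omega
        have h1 := rho_le z q w p N hz hw (by omega) hq1 r.num hp hpq hwp hb kz2
        have h2 := rho_le w q w p N hw hw (by omega) hq1 r.num hp hpq hwp hb kw2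
        refine (norm_sub_le _ _).trans ((add_le_add h1 h2).trans (le_of_eq ?_))
        ring
      · push Not at hex
        rw [hR, rho_same w z q hwz hex r.num, sub_self, norm_zero]
        positivity
    set γ : ℝ := α - (r.num : ℝ) / q with hγ
    have hpart : ∀ y : ℕ, y ≤ N → ‖∑ n ∈ Icc 1 y, (((lamz z n - lamz w n : ℝ) : ℂ) * ee (n * ((r.num : ℝ) / q)) - R)‖ ≤ 2 * (q * δ) := by
      intro y hy
      have e : ∑ n ∈ Icc 1 y, (((lamz z n - lamz w n : ℝ) : ℂ) * ee (n * ((r.num : ℝ) / q)) - R) =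
          (∑ n ∈ Icc 1 y, ((lamz z n : ℝ) : ℂ) * ee (n * ((r.num : ℝ) / q)) - y * rho z q r.num) -
          (∑ n ∈ Icc 1 y, ((lamz w n : ℝ) : ℂ) * ee (n * ((r.num : ℝ) / q)) - y * rho w q r.num) := by
        rw [sum_sub_distrib, sum_const, Nat.card_Icc, nsmul_eq_mul, hR]
        have h1 : ∑ n ∈ Icc 1 y, ((lamz z n - lamz w n : ℝ) : ℂ) * ee (n * ((r.num : ℝ) / q)) =
            ∑ n ∈ Icc 1 y, ((lamz z n : ℝ) : ℂ) * ee (n * ((r.num : ℝ) / q)) -
            ∑ n ∈ Icc 1 y, ((lamz w n : ℝ) : ℂ) * ee (n * ((r.num : ℝ) / q)) := by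
          rw [← sum_sub_distrib]
          apply sum_congr rfl
          intro n _
          push_cast
          ring
        rw [h1, Nat.add_sub_cancel]
        ring
      rw [e]
      refine (norm_sub_le _ _).trans ?_
      linarith [kz1 y hy, kw1 y hy]
    have h1 := abel_ee (fun n => ((lamz z n - lamz w n : ℝ) : ℂ) * ee (n * ((r.num : ℝ) / q)) - R) γ (2 * (q * δ)) N hpart
    have h2 : ∑ n ∈ Icc 1 N, ((lamz z n - lamz w n : ℝ) : ℂ) * ee ((n : ℝ) * α) =
        ∑ n ∈ Icc 1 N, (((lamz z n - lamz w n : ℝ) : ℂ) * ee (n * ((r.num : ℝ) / q)) - R) * ee (n * γ) +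
        R * ∑ n ∈ Icc 1 N, ee (n * γ) := by
      rw [mul_sum, ← sum_add_distrib]
      apply sum_congr rfl
      intro n _
      have e : ee ((n : ℝ) * α) = ee (n * ((r.num : ℝ) / q)) * ee (n * γ) := by
        rw [← ee_add]
        congr 1
        rw [hγ]
        ring
      rw [e]
      ring
    rw [h2]
    refine (norm_add_le _ _).trans ?_
    have h7 : ‖R * ∑ n ∈ Icc 1 N, ee (n * γ)‖ ≤ 4 * N / w := by
      rw [norm_mul]
      have h8 : ‖∑ n ∈ Icc 1 N, ee (n * γ)‖ ≤ N := by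
        refine (norm_sum_le _ _).trans ?_
        simp [norm_ee]
      calc ‖R‖ * ‖∑ n ∈ Icc 1 N, ee (n * γ)‖ ≤ 4 / w * N := mul_le_mul hRle h8 (norm_nonneg _) (by positivity)
        _ = _ := by ring
    have hβ : |γ| ≤ L ^ B / N := by
      refine hr1.trans ?_
      rw [div_le_div_iff₀ (by positivity) hN0, one_mul]
      have h3 : (N : ℝ) / L ^ B ≤ (Q : ℝ) + 1 := (Nat.lt_floor_add_one _).le
      rw [div_le_iff₀ hLB0] at h3
      have h4 : (1 : ℝ) ≤ q := by exact_mod_cast hq1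
      have h5 : ((Q : ℝ) + 1) * L ^ B ≤ ((Q : ℝ) + 1) * L ^ B * q := le_mul_of_one_le_right (by positivity) h4
      calc (N : ℝ) ≤ ((Q : ℝ) + 1) * L ^ B := h3
        _ ≤ ((Q : ℝ) + 1) * L ^ B * q := h5
        _ = L ^ B * (((Q : ℝ) + 1) * q) := by ring
    have h3 : (N : ℝ) * ‖ee γ - 1‖ ≤ 7 * L ^ B := by
      have h4 : ‖ee γ - 1‖ ≤ 2 * Real.pi * |γ| := by
        have := dd_le γ
        unfold dd at this
        rw [norm_sub_rev] at this
        exact this
      have h5 : |γ| * N ≤ L ^ B := by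
        rw [le_div_iff₀ hN0] at hβ
        exact hβ
      have hpi : Real.pi < 3.15 := Real.pi_lt_d2
      have h6 : 0 ≤ |γ| * N := by positivity
      calc (N : ℝ) * ‖ee γ - 1‖ ≤ N * (2 * Real.pi * |γ|) := by gcongr
        _ = 2 * Real.pi * (|γ| * N) := by ring
        _ ≤ 7 * (|γ| * N) := by
            apply mul_le_mul_of_nonneg_right _ h6
            linarith
        _ ≤ 7 * L ^ B := by linarith
    have h9 : 2 * (q * δ) * (1 + N * ‖ee γ - 1‖) ≤ N / L ^ U := by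
      calc 2 * (q * δ) * (1 + N * ‖ee γ - 1‖) ≤ 2 * (L ^ B * δ) * (8 * L ^ B) := by
            apply mul_le_mul _ (by linarith) (by positivity) (by positivity)
            apply mul_le_mul_of_nonneg_left _ (by norm_num)
            exact mul_le_mul_of_nonneg_right hqs.le hδ0
        _ = (16 / L) * (N / L ^ U) := by
            rw [hδ]
            have e : L ^ (2 * B + U + 1) = L ^ B * L ^ B * L ^ U * L := by rw [← pow_add, ← pow_add, ← pow_succ]; congr 1; ring
            rw [e]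
            field_simp
            ring
        _ ≤ 1 * (N / L ^ U) := by
            apply mul_le_mul_of_nonneg_right _ (by positivity)
            rw [div_le_one hL0]
            linarith
        _ = N / L ^ U := one_mul _
    linarith [h1.trans h9]

end Pool.Agent.H68.GR
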