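import Mathlib
import Pool.Agent.H68.GR.Bil

set_option autoImplicit false
set_option linter.unusedVariables false

/-! Replacing one kernel by another one along the edges of a graph. -/

namespace Pool.Agent.H68.GR
open Finset
open Pool.Agent.H373R2.T7
open Pool.Agent.H807R2.Dav

variable {V : Type*} [Fintype V] [DecidableEq V] {ι : Type*} [DecidableEq ι]

/-- the box `[1, N] ^ V` -/
def Box (V : Type*) [Fintype V] [DecidableEq V] (N : ℕ) : Finset (V → ℕ) := Fintype.piFinset fun _ : V => Icc 1 N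

/-- `f` does not depend on the coordinate `i` -/
def Blind (f : (V → ℕ) → ℂ) (i : V) : Prop := ∀ (x : V → ℕ) (t : ℕ), f (Function.update x i t) = f x

/-- `w` is `C` times a product of two functions bounded by one, the first of which does not depend on the coordinate `u`,
the second not on the coordinate `v` -/
def SplitC (C : ℝ) (w : (V → ℕ) → ℂ) (u v : V) : Prop :=
  ∃ F G : (V → ℕ) → ℂ, (∀ x, ‖F x‖ ≤ 1) ∧ (∀ x, ‖G x‖ ≤ 1) ∧ Blind F u ∧ Blind G v ∧ ∀ x, w x = (C : ℂ) * (F x * G x)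

lemma mem_Box {N : ℕ} {x : V → ℕ} : x ∈ Box V N ↔ ∀ i, x i ∈ Icc 1 N := by
  unfold Box; rw [Fintype.mem_piFinset]

lemma card_Box (N : ℕ) : (Box V N).card = N ^ Fintype.card V := by
  unfold Box; rw [Fintype.card_piFinset]; simp

lemma update_mem {N : ℕ} {x : V → ℕ} (hx : x ∈ Box V N) (i : V) {s : ℕ} (hs : s ∈ Icc 1 N) : Function.update x i s ∈ Box V N := by
  rw [mem_Box] at hx ⊢
  intro j
  by_cases h : j = i
  · subst h; rw [Function.update_self]; exact hs
  · rw [Function.update_of_ne h]; exact hx j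

lemma avg_one (N : ℕ) (Φ : (V → ℕ) → ℂ) (i : V) :
    ∑ x ∈ Box V N, ∑ s ∈ Icc 1 N, Φ (Function.update x i s) = N * ∑ x ∈ Box V N, Φ x := by
  rw [← sum_product']
  have h1 : ∑ p ∈ Box V N ×ˢ Icc 1 N, Φ (Function.update p.1 i p.2) = ∑ p ∈ Box V N ×ˢ Icc 1 N, Φ p.1 := by
    apply sum_nbij' (fun p => (Function.update p.1 i p.2, p.1 i)) (fun p => (Function.update p.1 i p.2, p.1 i))
    · rintro ⟨x, s⟩ hp
      rw [mem_product] at hp ⊢
      exact ⟨update_mem hp.1 i hp.2, mem_Box.1 hp.1 i⟩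
    · rintro ⟨x, s⟩ hp
      rw [mem_product] at hp ⊢
      exact ⟨update_mem hp.1 i hp.2, mem_Box.1 hp.1 i⟩
    · rintro ⟨x, s⟩ hp
      simp
    · rintro ⟨x, s⟩ hp
      simp
    · rintro ⟨x, s⟩ hp
      rfl
  rw [h1, sum_product]
  simp only [sum_const, Nat.card_Icc, Nat.add_sub_cancel, nsmul_eq_mul]
  rw [mul_sum]

/-- the value of a linear form at an edge -/
def lf (u v : V) (a b c : ℕ) (x : V → ℕ) : ℕ := a * x u + b * x v + c

lemma edge_bound (N K a b c : ℕ) (u v : V) (huv : u ≠ v) (ha : 1 ≤ a) (hb : 1 ≤ b)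
    (hK : ∀ x ∈ Icc 1 N, ∀ y ∈ Icc 1 N, a * x + b * y + c ≤ K)
    (g : ℕ → ℝ) (η : ℝ) (hsup : ∀ α : ℝ, ‖∑ n ∈ Icc 1 K, ((g n : ℝ) : ℂ) * ee ((n : ℝ) * α)‖ ≤ η)
    (C : ℝ) (hC : 0 ≤ C) (w : (V → ℕ) → ℂ) (hw : SplitC C w u v) :
    N * ‖∑ x ∈ Box V N, w x * ((g (lf u v a b c x) : ℝ) : ℂ)‖ ≤ (Box V N).card * (C * η) := by
  obtain ⟨F, G, hF, hG, hFu, hGv, hwe⟩ := hw
  rcases Nat.eq_zero_or_pos N with hN | hN
  · rw [hN]
    have hη : 0 ≤ η := (norm_nonneg _).trans (hsup 0)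
    simp only [Nat.cast_zero, zero_mul]
    positivity
  have hN0 : (0 : ℝ) < N := by exact_mod_cast hN
  set Φ : (V → ℕ) → ℂ := fun x => w x * ((g (lf u v a b c x) : ℝ) : ℂ) with hΦ
  have h1 : (N : ℂ) * (N * ∑ x ∈ Box V N, Φ x) =
      ∑ x ∈ Box V N, ∑ s ∈ Icc 1 N, ∑ t ∈ Icc 1 N, Φ (Function.update (Function.update x u s) v t) := by
    rw [← avg_one N Φ v, ← avg_one N (fun x => ∑ t ∈ Icc 1 N, Φ (Function.update x v t)) u]
  have h2 : ∀ x ∈ Box V N, ‖∑ s ∈ Icc 1 N, ∑ t ∈ Icc 1 N, Φ (Function.update (Function.update x u s) v t)‖ ≤ C * (η * N) := by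
    intro x _
    have h3 : ∑ s ∈ Icc 1 N, ∑ t ∈ Icc 1 N, Φ (Function.update (Function.update x u s) v t) =
        (C : ℂ) * ∑ s ∈ Icc 1 N, ∑ t ∈ Icc 1 N, G (Function.update x u s) * F (Function.update x v t) *
          ((g (a * s + b * t + c) : ℝ) : ℂ) := by
      rw [mul_sum]
      apply sum_congr rfl
      intro s _
      rw [mul_sum]
      apply sum_congr rfl
      intro t _
      have e1 : F (Function.update (Function.update x u s) v t) = F (Function.update x v t) := by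
        rw [Function.update_comm huv]
        exact hFu _ _
      have e2 : G (Function.update (Function.update x u s) v t) = G (Function.update x u s) := hGv _ _
      have e3 : lf u v a b c (Function.update (Function.update x u s) v t) = a * s + b * t + c := by
        unfold lf
        rw [Function.update_self, Function.update_of_ne huv, Function.update_self]
      simp only [hΦ]
      rw [hwe, e1, e2, e3]
      ring
    rw [h3, norm_mul, Complex.norm_real, Real.norm_of_nonneg hC]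
    apply mul_le_mul_of_nonneg_left _ hC
    exact bil N K a b c ha hb hK g η hsup (fun s => G (Function.update x u s)) (fun t => F (Function.update x v t))
      (fun _ => hG _) (fun _ => hF _)
  have h4 : (N : ℝ) * (N * ‖∑ x ∈ Box V N, Φ x‖) ≤ (Box V N).card * (C * (η * N)) := by
    have h5 : (N : ℝ) * (N * ‖∑ x ∈ Box V N, Φ x‖) = ‖(N : ℂ) * (N * ∑ x ∈ Box V N, Φ x)‖ := by
      rw [norm_mul, norm_mul, Complex.norm_natCast]
    rw [h5, h1]
    refine (norm_sum_le _ _).trans ((sum_le_sum h2).trans ?_)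
    rw [sum_const, nsmul_eq_mul]
  have h6 : (N : ℝ) * (N * ‖∑ x ∈ Box V N, Φ x‖) ≤ N * ((Box V N).card * (C * η)) := by
    refine h4.trans (le_of_eq ?_)
    ring
  exact le_of_mul_le_mul_left h6 hN0

lemma split_mul {C B : ℝ} (hB : 0 < B) {w k : (V → ℕ) → ℂ} {u v : V} (hw : SplitC C w u v)
    (hk : ∀ x, ‖k x‖ ≤ B) (hb : Blind k u ∨ Blind k v) : SplitC (C * B) (fun x => w x * k x) u v := by
  obtain ⟨F, G, hF, hG, hFu, hGv, hwe⟩ := hw
  have hBc : (B : ℂ) ≠ 0 := by exact_mod_cast hB.ne'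
  have hk1 : ∀ x, ‖k x / (B : ℂ)‖ ≤ 1 := by
    intro x
    rw [norm_div, Complex.norm_real, Real.norm_of_nonneg hB.le, div_le_one hB]
    exact hk x
  rcases hb with h | h
  · refine ⟨fun x => F x * (k x / B), G, fun x => ?_, hG, fun x t => ?_, hGv, fun x => ?_⟩
    · rw [norm_mul]
      exact mul_le_one₀ (hF x) (norm_nonneg _) (hk1 x)
    · simp only [hFu x t, h x t]
    · simp only [hwe x]
      push_cast
      field_simp
  · refine ⟨F, fun x => G x * (k x / B), hF, fun x => ?_, hFu, fun x t => ?_, fun x => ?_⟩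
    · rw [norm_mul]
      exact mul_le_one₀ (hG x) (norm_nonneg _) (hk1 x)
    · simp only [hGv x t, h x t]
    · simp only [hwe x]
      push_cast
      field_simp

lemma split_prod {C B : ℝ} (hB : 0 < B) {u v : V} (T : Finset ι) (k : ι → (V → ℕ) → ℂ)
    (hk : ∀ e ∈ T, ∀ x, ‖k e x‖ ≤ B) (hb : ∀ e ∈ T, Blind (k e) u ∨ Blind (k e) v) {w : (V → ℕ) → ℂ} (hw : SplitC C w u v) :
    SplitC (C * B ^ T.card) (fun x => w x * ∏ e ∈ T, k e x) u v := by
  induction T using Finset.induction_on with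
  | empty => simpa using hw
  | insert e T he ih =>
    have h1 := ih (fun e' h' => hk e' (mem_insert_of_mem h')) (fun e' h' => hb e' (mem_insert_of_mem h'))
    have h2 := split_mul hB h1 (hk e (mem_insert_self _ _)) (hb e (mem_insert_self _ _))
    rw [card_insert_of_notMem he, pow_succ, ← mul_assoc]
    convert h2 using 2 with x
    rw [prod_insert he]
    ring

lemma blind_lf (f : ℕ → ℝ) (u v i : V) (a b c : ℕ) (h1 : u ≠ i) (h2 : v ≠ i) :
    Blind (fun x : V → ℕ => ((f (lf u v a b c x) : ℝ) : ℂ)) i := by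
  intro x t
  unfold lf
  simp only [Function.update_of_ne h1, Function.update_of_ne h2]

/-- the edges of a simple graph with their linear forms -/
structure Edges (V ι : Type*) where
  u : ι → V
  v : ι → V
  a : ι → ℕ
  b : ι → ℕ
  E : Finset ι
  ne : ∀ e ∈ E, u e ≠ v e
  ha : ∀ e ∈ E, 1 ≤ a e
  hb : ∀ e ∈ E, 1 ≤ b e
  simple : ∀ e ∈ E, ∀ e' ∈ E, e ≠ e' → ¬ ((u e' = u e ∨ u e' = v e) ∧ (v e' = u e ∨ v e' = v e))

/-- the value at an edge -/
def Edges.L (D : Edges V ι) (c : ι → ℕ) (e : ι) (x : V → ℕ) : ℕ := lf (D.u e) (D.v e) (D.a e) (D.b e) (c e) x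

lemma Edges.blind (D : Edges V ι) (c : ι → ℕ) (f : ℕ → ℝ) (e : ι) (he : e ∈ D.E) (e' : ι) (he' : e' ∈ D.E) (hne : e ≠ e') :
    Blind (fun x : V → ℕ => ((f (D.L c e' x) : ℝ) : ℂ)) (D.u e) ∨ Blind (fun x : V → ℕ => ((f (D.L c e' x) : ℝ) : ℂ)) (D.v e) := by
  have h := D.simple e he e' he' hne
  have h1 := D.ne e he
  have h2 := D.ne e' he'
  by_cases h3 : D.u e' ≠ D.u e ∧ D.v e' ≠ D.u e
  · left
    exact blind_lf f _ _ _ _ _ _ h3.1 h3.2
  · right
    apply blind_lf f _ _ _ _ _ _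
    · intro h4
      apply h
      refine ⟨Or.inr h4, ?_⟩
      by_contra h5
      push Not at h5
      apply h3
      exact ⟨fun h6 => h1 (h6.symm.trans h4), h5.1⟩
    · intro h4
      apply h
      refine ⟨?_, Or.inr h4⟩
      by_contra h5
      push Not at h5
      apply h3
      exact ⟨h5.1, fun h6 => h1 (h6.symm.trans h4)⟩

/-- **Replacing the kernel.** -/
theorem tele (D : Edges V ι) (c : ι → ℕ) (N K : ℕ) (hK : ∀ e ∈ D.E, ∀ x ∈ Icc 1 N, ∀ y ∈ Icc 1 N, D.a e * x + D.b e * y + c e ≤ K)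
    (f f' : ℕ → ℝ) (B : ℝ) (hB : 1 ≤ B) (hf : ∀ n, |f n| ≤ B) (hf' : ∀ n, |f' n| ≤ B) (η : ℝ)
    (hsup : ∀ α : ℝ, ‖∑ n ∈ Icc 1 K, ((f n - f' n : ℝ) : ℂ) * ee ((n : ℝ) * α)‖ ≤ η) :
    ∀ T : Finset ι, T ⊆ D.E → ∀ C : ℝ, 0 ≤ C → ∀ w : (V → ℕ) → ℂ, (∀ e ∈ T, SplitC C w (D.u e) (D.v e)) →
      N * ‖∑ x ∈ Box V N, w x * (((∏ e ∈ T, f (D.L c e x) - ∏ e ∈ T, f' (D.L c e x) : ℝ)) : ℂ)‖ ≤
        (Box V N).card * (T.card * (C * B ^ T.card * η)) := by
  have hB0 : 0 < B := by linarith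
  have hη : 0 ≤ η := (norm_nonneg _).trans (hsup 0)
  intro T
  induction T using Finset.induction_on with
  | empty => intro _ C hC w _; simp
  | insert e0 T he ih =>
    intro hT C hC w hw
    have he0 : e0 ∈ D.E := hT (mem_insert_self _ _)
    have hTs : T ⊆ D.E := fun e h => hT (mem_insert_of_mem h)
    have hne : ∀ e ∈ T, e ≠ e0 := fun e h h' => he (h' ▸ h)
    set k : ι → (V → ℕ) → ℂ := fun e x => ((f (D.L c e x) : ℝ) : ℂ) with hk
    set k' : ι → (V → ℕ) → ℂ := fun e x => ((f' (D.L c e x) : ℝ) : ℂ) with hk'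
    have hkn : ∀ e x, ‖k e x‖ ≤ B := fun e x => by simp only [hk]; rw [Complex.norm_real, Real.norm_eq_abs]; exact hf _
    have hkn' : ∀ e x, ‖k' e x‖ ≤ B := fun e x => by simp only [hk']; rw [Complex.norm_real, Real.norm_eq_abs]; exact hf' _
    -- first part
    have h1 := ih hTs (C * B) (by positivity) (fun x => w x * k e0 x) (fun e h =>
      split_mul hB0 (hw e (mem_insert_of_mem h)) (hkn e0) (D.blind c f e (hTs h) e0 he0 (hne e h)))
    -- second part
    have h2 := edge_bound N K (D.a e0) (D.b e0) (c e0) (D.u e0) (D.v e0) (D.ne e0 he0) (D.ha e0 he0) (D.hb e0 he0) (hK e0 he0)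
      (fun n => f n - f' n) η hsup (C * B ^ T.card) (by positivity) (fun x => w x * ∏ e ∈ T, k' e x)
      (split_prod hB0 T k' (fun e _ => hkn' e) (fun e h => D.blind c f' e0 he0 e (hTs h) (hne e h).symm) (hw e0 (mem_insert_self _ _)))
    have h3 : ∑ x ∈ Box V N, w x * (((∏ e ∈ insert e0 T, f (D.L c e x) - ∏ e ∈ insert e0 T, f' (D.L c e x) : ℝ)) : ℂ) =
        ∑ x ∈ Box V N, (w x * k e0 x) * (((∏ e ∈ T, f (D.L c e x) - ∏ e ∈ T, f' (D.L c e x) : ℝ)) : ℂ) +
        ∑ x ∈ Box V N, (w x * ∏ e ∈ T, k' e x) * (((f (lf (D.u e0) (D.v e0) (D.a e0) (D.b e0) (c e0) x) -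
          f' (lf (D.u e0) (D.v e0) (D.a e0) (D.b e0) (c e0) x) : ℝ)) : ℂ) := by
      rw [← sum_add_distrib]
      apply sum_congr rfl
      intro x _
      rw [prod_insert he, prod_insert he]
      simp only [hk, hk', Edges.L]
      push_cast
      ring
    rw [h3]
    calc (N : ℝ) * ‖_ + _‖ ≤ N * (_ + _) := mul_le_mul_of_nonneg_left (norm_add_le _ _) (Nat.cast_nonneg _)
      _ = N * _ + N * _ := mul_add _ _ _
      _ ≤ (Box V N).card * (T.card * (C * B * B ^ T.card * η)) + (Box V N).card * (C * B ^ T.card * η) := add_le_add h1 h2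
      _ ≤ (Box V N).card * (T.card * (C * B * B ^ T.card * η)) + (Box V N).card * (C * B ^ T.card * B * η) := by
          have h5 : C * B ^ T.card * η ≤ C * B ^ T.card * B * η := by
            apply mul_le_mul_of_nonneg_right _ hη
            nlinarith [mul_nonneg hC (pow_nonneg hB0.le T.card)]
          have := mul_le_mul_of_nonneg_left h5 (Nat.cast_nonneg (α := ℝ) (Box V N).card)
          linarith
      _ = _ := by
          rw [card_insert_of_notMem he, pow_succ]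
          push_cast
          ring

end Pool.Agent.H68.GR
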