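import Mathlib
import Pool.Agent.H68.GR.Sup2
import Pool.Agent.H68.GR.Tel
import Pool.Graph.R_seed8.Helper256.KM.Mertens

set_option autoImplicit false
set_option linter.unusedVariables false
set_option linter.unusedSectionVars false

/-! From the primes to the sieve models at all scales. -/

namespace Pool.Agent.H68.GR
open Finset
open Pool.Agent.H373R2.T7
open Pool.Agent.H807R2.Dav

variable {V : Type*} [Fintype V] [DecidableEq V] {ι : Type*} [DecidableEq ι]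

/-- the weighted sum over the box of the products over the edges -/
noncomputable def Sw (D : Edges V ι) (c : ι → ℕ) (N : ℕ) (w : (V → ℕ) → ℂ) (f : ℕ → ℝ) : ℂ :=
  ∑ x ∈ Box V N, w x * ((∏ e ∈ D.E, f (D.L c e x) : ℝ) : ℂ)

/-- the hypotheses on the linear forms and on the weight -/
structure Good (D : Edges V ι) (c : ι → ℕ) (N K : ℕ) (w : (V → ℕ) → ℂ) : Prop where
  hK : ∀ e ∈ D.E, ∀ x ∈ Icc 1 N, ∀ y ∈ Icc 1 N, D.a e * x + D.b e * y + c e ≤ K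
  hw : ∀ e ∈ D.E, SplitC 1 w (D.u e) (D.v e)

lemma Sw_diff (D : Edges V ι) (c : ι → ℕ) (N K Q : ℕ) (hN : 1 ≤ N) (w : (V → ℕ) → ℂ) (hG : Good D c N K w)
    (f f' : ℕ → ℝ) (B : ℝ) (hB : 1 ≤ B) (hf : ∀ n, |f n| ≤ B) (hf' : ∀ n, |f' n| ≤ B) (η : ℝ)
    (hsup : ∀ α : ℝ, ‖∑ n ∈ Icc 1 K, ((f n - f' n : ℝ) : ℂ) * ee ((n : ℝ) * α)‖ ≤ K * η) (hKQ : K = Q * N) (k : ℕ)
    (hk : D.E.card ≤ k) :
    ‖Sw D c N w f - Sw D c N w f'‖ ≤ (Box V N).card * (k * B ^ k * (Q * η)) := by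
  have hN0 : (0 : ℝ) < N := by exact_mod_cast hN
  have h := tele D c N K hG.hK f f' B hB hf hf' (K * η) hsup D.E (Subset.refl _) 1 zero_le_one w hG.hw
  have hη : 0 ≤ (K : ℝ) * η := (norm_nonneg _).trans (hsup 0)
  have e : Sw D c N w f - Sw D c N w f' = ∑ x ∈ Box V N, w x * (((∏ e ∈ D.E, f (D.L c e x) - ∏ e ∈ D.E, f' (D.L c e x) : ℝ)) : ℂ) := by
    unfold Sw
    rw [← sum_sub_distrib]
    apply sum_congr rfl
    intro x _
    push_cast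
    ring
  rw [e]
  have hk' : (D.E.card : ℝ) ≤ k := by exact_mod_cast hk
  have h2 : (N : ℝ) * ‖∑ x ∈ Box V N, w x * (((∏ e ∈ D.E, f (D.L c e x) - ∏ e ∈ D.E, f' (D.L c e x) : ℝ)) : ℂ)‖ ≤
      N * ((Box V N).card * (k * B ^ k * (Q * η))) := by
    refine h.trans ?_
    rw [one_mul]
    have h3 : B ^ D.E.card ≤ B ^ k := pow_le_pow_right₀ hB hk
    calc ((Box V N).card : ℝ) * (D.E.card * (B ^ D.E.card * (K * η))) ≤ (Box V N).card * (k * (B ^ k * (K * η))) := by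
          apply mul_le_mul_of_nonneg_left _ (Nat.cast_nonneg _)
          apply mul_le_mul hk' _ (by positivity) (Nat.cast_nonneg _)
          exact mul_le_mul_of_nonneg_right h3 hη
      _ = N * ((Box V N).card * (k * B ^ k * (Q * η))) := by
          rw [hKQ]
          push_cast
          ring
  exact le_of_mul_le_mul_left h2 hN0

lemma Vz_inv_sq : ∃ C : ℝ, 1 ≤ C ∧ ∀ z : ℕ, 3 ≤ z → (Vz z)⁻¹ ≤ C * Real.log z ^ 2 := by
  obtain ⟨C, hC⟩ := Pool.Agent.Helper256.KM.mertens_inv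
  refine ⟨max 1 (Real.exp (2 * C)), le_max_left _ _, fun z h3 => ?_⟩
  have h4 := hC z h3
  have h5 : (Vz z)⁻¹ ≤ Real.exp (2 * ∑ p ∈ pz z, 1 / (p : ℝ)) := by
    unfold Vz
    rw [← prod_inv_distrib, mul_sum, Real.exp_sum]
    apply prod_le_prod
    · intro p hp
      have hp2 : (2 : ℝ) ≤ p := by exact_mod_cast (mem_pz.1 hp).2.two_le
      apply inv_nonneg.2
      rw [sub_nonneg, div_le_one (by linarith)]; linarith
    · intro p hp
      have hp2 : (2 : ℝ) ≤ p := by exact_mod_cast (mem_pz.1 hp).2.two_le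
      have h6 : (1 - 1 / (p : ℝ))⁻¹ ≤ 2 * (1 / p) + 1 := by
        rw [inv_le_iff_one_le_mul₀ (by rw [sub_pos, div_lt_one (by linarith)]; linarith)]
        have h7 : 0 < 1 / (p : ℝ) := by positivity
        have h8 : 1 / (p : ℝ) ≤ 1 / 2 := one_div_le_one_div_of_le (by norm_num) hp2
        nlinarith
      exact h6.trans (Real.add_one_le_exp _)
  have hz3 : (3 : ℝ) ≤ z := by exact_mod_cast h3
  have hlz : 1 ≤ Real.log z := by
    rw [← Real.log_exp 1]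
    apply Real.log_le_log (Real.exp_pos _)
    have := Real.exp_one_lt_d9
    linarith
  have h6 : ∑ p ∈ pz z, 1 / (p : ℝ) ≤ Real.log (Real.log z) + C := by
    have := (abs_le.1 h4).2
    unfold pz
    linarith
  calc (Vz z)⁻¹ ≤ Real.exp (2 * ∑ p ∈ pz z, 1 / (p : ℝ)) := h5
    _ ≤ Real.exp (2 * (Real.log (Real.log z) + C)) := Real.exp_le_exp.2 (by linarith)
    _ = Real.exp (2 * C) * Real.log z ^ 2 := by
        rw [mul_add, Real.exp_add, mul_comm 2 (Real.log (Real.log z)), Real.exp_mul, Real.exp_log (by linarith)]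
        norm_num
        ring
    _ ≤ _ := mul_le_mul_of_nonneg_right (le_max_right _ _) (by positivity)

lemma Vz_anti {w z : ℕ} (h : w ≤ z) : (Vz w)⁻¹ ≤ (Vz z)⁻¹ := by
  apply inv_anti₀ (Vz_pos z)
  have h1 : pz w ⊆ pz z := fun p hp => mem_pz.2 ⟨(mem_pz.1 hp).1.trans h, (mem_pz.1 hp).2⟩
  unfold Vz
  rw [← prod_sdiff h1]
  apply mul_le_of_le_one_left
  · exact prod_nonneg fun p hp => (fac_pos hp).le
  · apply prod_le_one
    · intro p hp; exact (fac_pos (mem_sdiff.1 hp).1).le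
    · intro p hp
      have : (0 : ℝ) ≤ 1 / (p : ℝ) := by positivity
      linarith

lemma lamz_abs {w z : ℕ} (h : w ≤ z) (n : ℕ) : |lamz w n| ≤ (Vz z)⁻¹ := by
  rw [abs_of_nonneg (lamz_nonneg w n)]
  refine le_trans ?_ (Vz_anti h)
  unfold lamz
  split_ifs
  · exact le_rfl
  · exact inv_nonneg.2 (Vz_pos w).le

lemma one_le_Vinv (z : ℕ) : 1 ≤ (Vz z)⁻¹ := (one_le_inv₀ (Vz_pos z)).2 (Vz_le_one z)

/-- one step between two models -/
lemma step (k Q E : ℕ) (hQ : 1 ≤ Q) : ∃ N0 : ℕ, ∀ N : ℕ, N0 ≤ N → ∀ w' z : ℕ, 1 ≤ w' → w' ≤ z →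
    (z : ℝ) ≤ Real.log ((Q * N : ℕ) : ℝ) ^ E → ∀ (D : Edges V ι) (c : ι → ℕ) (w : (V → ℕ) → ℂ), Good D c N (Q * N) w →
    D.E.card ≤ k → ‖Sw D c N w (lamz z) - Sw D c N w (lamz w')‖ ≤
      (Box V N).card * (k * (Vz z)⁻¹ ^ k * (4 * Q / w') + k * Q / Real.log ((Q * N : ℕ) : ℝ) ^ 2) := by
  obtain ⟨n1, h1⟩ := sup_scale E (k + 2)
  obtain ⟨n2, h2⟩ := Vz_inv_small E
  obtain ⟨n3, h3⟩ := ev_L' 1
  refine ⟨max (max n1 n2) (max n3 1), fun N hN w' z hw' hwz hz D c w hG hk => ?_⟩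
  have hN1 : 1 ≤ N := le_trans (le_trans (le_max_right _ _) (le_max_right _ _)) hN
  have hNK : N ≤ Q * N := Nat.le_mul_of_pos_left _ hQ
  have hn1 : n1 ≤ Q * N := (le_trans (le_trans (le_max_left _ _) (le_max_left _ _)) hN).trans hNK
  have hn2 : n2 ≤ Q * N := (le_trans (le_trans (le_max_right _ _) (le_max_left _ _)) hN).trans hNK
  have hn3 : n3 ≤ Q * N := (le_trans (le_trans (le_max_left _ _) (le_max_right _ _)) hN).trans hNK
  set K := Q * N with hK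
  set L := Real.log (K : ℝ) with hL
  have hL1 : 1 ≤ L := h3 K hn3
  have hL0 : 0 < L := by linarith
  have hw0 : (0 : ℝ) < w' := by exact_mod_cast hw'
  have h4 := Sw_diff D c N K Q hN1 w hG (lamz z) (lamz w') (Vz z)⁻¹ (one_le_Vinv z) (lamz_abs le_rfl) (lamz_abs hwz)
    (4 / w' + 1 / L ^ (k + 2)) (fun α => by
      refine (h1 K hn1 w' z hw' hwz hz α).trans (le_of_eq ?_)
      rw [← hL]
      ring) hK k hk
  refine h4.trans ?_
  apply mul_le_mul_of_nonneg_left _ (Nat.cast_nonneg _)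
  have h5 : (Vz z)⁻¹ ≤ L := h2 K hn2 z (hw'.trans hwz) hz
  have h6 : (0 : ℝ) ≤ (Vz z)⁻¹ := inv_nonneg.2 (Vz_pos z).le
  have h7 : (Vz z)⁻¹ ^ k ≤ L ^ k := pow_le_pow_left₀ h6 h5 k
  have h8 : (k : ℝ) * (Vz z)⁻¹ ^ k * (Q * (1 / L ^ (k + 2))) ≤ k * Q / L ^ 2 := by
    calc (k : ℝ) * (Vz z)⁻¹ ^ k * (Q * (1 / L ^ (k + 2))) ≤ k * L ^ k * (Q * (1 / L ^ (k + 2))) := by gcongr
      _ = k * Q / L ^ 2 := by
          rw [pow_add]
          field_simp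
  calc (k : ℝ) * (Vz z)⁻¹ ^ k * (Q * (4 / w' + 1 / L ^ (k + 2))) =
      k * (Vz z)⁻¹ ^ k * (4 * Q / w') + k * (Vz z)⁻¹ ^ k * (Q * (1 / L ^ (k + 2))) := by ring
    _ ≤ _ := by linarith

lemma chain_abs (g : ℕ → ℂ) (w0 : ℕ) (hw0 : 4 ≤ w0) (A τ : ℝ) (hA : 0 ≤ A) (J : ℕ)
    (h : ∀ j : ℕ, j < J → ‖g (w0 ^ 2 ^ (j + 1)) - g (w0 ^ 2 ^ j)‖ ≤ A * (1 / √((w0 ^ 2 ^ j : ℕ) : ℝ)) + τ) :
    ‖g (w0 ^ 2 ^ J) - g w0‖ ≤ A * (2 / √(w0 : ℝ)) + J * τ := by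
  have hw0r : (4 : ℝ) ≤ w0 := by exact_mod_cast hw0
  have hs0 : 0 < √(w0 : ℝ) := Real.sqrt_pos.2 (by linarith)
  have hroot : ∀ j : ℕ, 1 / √((w0 ^ 2 ^ j : ℕ) : ℝ) ≤ (1 / √(w0 : ℝ)) * (1 / 2) ^ j := by
    intro j
    have h1 : (w0 : ℝ) * 4 ^ j ≤ ((w0 ^ 2 ^ j : ℕ) : ℝ) := by
      have h2 : j + 1 ≤ 2 ^ j := Nat.lt_two_pow_self
      have h3 : w0 * 4 ^ j ≤ w0 ^ 2 ^ j := by
        calc w0 * 4 ^ j ≤ w0 * w0 ^ j := Nat.mul_le_mul_left _ (Nat.pow_le_pow_left hw0 j)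
          _ = w0 ^ (j + 1) := by rw [pow_succ]; ring
          _ ≤ w0 ^ 2 ^ j := Nat.pow_le_pow_right (by omega) h2
      exact_mod_cast h3
    have h4 : √(w0 : ℝ) * 2 ^ j ≤ √((w0 ^ 2 ^ j : ℕ) : ℝ) := by
      have h5 : √(w0 : ℝ) * 2 ^ j = √((w0 : ℝ) * 4 ^ j) := by
        rw [Real.sqrt_mul (by linarith), show (4 : ℝ) ^ j = (2 ^ j) ^ 2 by rw [← pow_mul, mul_comm j 2, pow_mul]; norm_num,
          Real.sqrt_sq (by positivity)]
      rw [h5]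
      exact Real.sqrt_le_sqrt h1
    calc 1 / √((w0 ^ 2 ^ j : ℕ) : ℝ) ≤ 1 / (√(w0 : ℝ) * 2 ^ j) := one_div_le_one_div_of_le (by positivity) h4
      _ = _ := by rw [one_div_pow, one_div_mul_one_div]
  have key : ∀ j : ℕ, j ≤ J → ‖g (w0 ^ 2 ^ j) - g w0‖ ≤ A * ((1 / √(w0 : ℝ)) * (2 * (1 - (1 / 2) ^ j))) + j * τ := by
    intro j
    induction j with
    | zero => intro _; simp
    | succ j ih =>
      intro hj
      have h1 := ih (by omega)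
      have h2 := h j (by omega)
      have h3 : g (w0 ^ 2 ^ (j + 1)) - g w0 = (g (w0 ^ 2 ^ (j + 1)) - g (w0 ^ 2 ^ j)) + (g (w0 ^ 2 ^ j) - g w0) := by ring
      rw [h3]
      refine (norm_add_le _ _).trans ?_
      have h4 : A * (1 / √((w0 ^ 2 ^ j : ℕ) : ℝ)) ≤ A * ((1 / √(w0 : ℝ)) * (1 / 2) ^ j) := mul_le_mul_of_nonneg_left (hroot j) hA
      have h5 : A * ((1 / √(w0 : ℝ)) * (2 * (1 - (1 / 2) ^ (j + 1)))) = A * ((1 / √(w0 : ℝ)) * (1 / 2) ^ j) +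
          A * ((1 / √(w0 : ℝ)) * (2 * (1 - (1 / 2) ^ j))) := by
        rw [pow_succ]
        ring
      push_cast
      rw [h5]
      linarith
  have h1 := key J le_rfl
  refine h1.trans ?_
  have h2 : A * ((1 / √(w0 : ℝ)) * (2 * (1 - (1 / 2) ^ J))) ≤ A * (2 / √(w0 : ℝ)) := by
    apply mul_le_mul_of_nonneg_left _ hA
    have h3 : (0 : ℝ) ≤ (1 / 2) ^ J := by positivity
    calc (1 / √(w0 : ℝ)) * (2 * (1 - (1 / 2) ^ J)) ≤ (1 / √(w0 : ℝ)) * (2 * 1) := by gcongr; linarith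
      _ = _ := by ring
  linarith

/-- **All scales.** -/
theorem scale_chain (k Q B0 : ℕ) (hQ : 1 ≤ Q) (hB0 : 1 ≤ B0) : ∃ W0 : ℕ, ∀ w0 : ℕ, W0 ≤ w0 → ∃ N0 : ℕ, ∀ N : ℕ, N0 ≤ N →
    ∃ z : ℕ, Real.log ((Q * N : ℕ) : ℝ) ^ B0 ≤ z ∧ (z : ℝ) ≤ Real.log ((Q * N : ℕ) : ℝ) ^ (2 * B0) ∧ 1 ≤ z ∧
    ∀ (D : Edges V ι) (c : ι → ℕ) (w : (V → ℕ) → ℂ), Good D c N (Q * N) w → D.E.card ≤ k →
      ‖Sw D c N w (lamz z) - Sw D c N w (lamz w0)‖ ≤ (Box V N).card * (3 / √(w0 : ℝ)) := by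
  obtain ⟨C, hC1, hC⟩ := Vz_inv_sq
  have hC0 : 0 < C := by linarith
  obtain ⟨x0, hx0⟩ := ev_log' (2 * k) (k * (4 * C) ^ k * (4 * Q))
  refine ⟨max x0 4, fun w0 hw0 => ?_⟩
  have hw04 : 4 ≤ w0 := le_trans (le_max_right _ _) hw0
  have hw0x : x0 ≤ w0 := le_trans (le_max_left _ _) hw0
  have hw0r : (4 : ℝ) ≤ w0 := by exact_mod_cast hw04
  have hs0 : 0 < √(w0 : ℝ) := Real.sqrt_pos.2 (by linarith)
  obtain ⟨n1, h1⟩ := step (V := V) (ι := ι) k Q (2 * B0) hQ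
  have hlim : Filter.Tendsto (fun N : ℕ => Real.log (N : ℝ)) Filter.atTop Filter.atTop :=
    Real.tendsto_log_atTop.comp (tendsto_natCast_atTop_atTop (R := ℝ))
  have h2 : ∀ᶠ N : ℕ in Filter.atTop, (w0 : ℝ) + B0 * Real.log (Real.log N) + 3 ≤ Real.log N := by
    have h3 := (Real.isLittleO_log_id_atTop).bound (show (0 : ℝ) < 1 / (2 * B0) by positivity)
    have h4 := hlim.eventually h3
    filter_upwards [h4, hlim.eventually_ge_atTop (2 * (w0 + 3))] with N h5 h6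
    simp only [id] at h5
    have h7 : (0 : ℝ) ≤ Real.log N := by linarith
    rw [Real.norm_of_nonneg h7, Real.norm_eq_abs] at h5
    have h8 := (le_abs_self _).trans h5
    have hB : (0 : ℝ) < B0 := by exact_mod_cast hB0
    have h9 : B0 * Real.log (Real.log N) ≤ Real.log N / 2 := by
      calc B0 * Real.log (Real.log N) ≤ B0 * (1 / (2 * B0) * Real.log N) := mul_le_mul_of_nonneg_left h8 hB.le
        _ = Real.log N / 2 := by field_simp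
    linarith
  have h3 : ∀ᶠ N : ℕ in Filter.atTop, (k : ℝ) * Q * √(w0 : ℝ) ≤ Real.log N := hlim.eventually_ge_atTop _
  obtain ⟨n2, h4⟩ := Filter.eventually_atTop.1 (h2.and (h3.and (hlim.eventually_ge_atTop 3)))
  refine ⟨max (max n1 n2) 1, fun N hN => ?_⟩
  have hN1 : 1 ≤ N := le_trans (le_max_right _ _) hN
  have hNK : N ≤ Q * N := Nat.le_mul_of_pos_left _ hQ
  have hn1 : n1 ≤ N := le_trans (le_trans (le_max_left _ _) (le_max_left _ _)) hN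
  have hn2 : n2 ≤ Q * N := (le_trans (le_trans (le_max_right _ _) (le_max_left _ _)) hN).trans hNK
  obtain ⟨h5, h6, hL3⟩ := h4 (Q * N) hn2
  set L := Real.log ((Q * N : ℕ) : ℝ) with hL
  have hL0 : 0 < L := by linarith
  have hL1 : 1 ≤ L := by linarith
  have hlog0 : 0 ≤ Real.log L := Real.log_nonneg hL1
  have hB0l : 0 ≤ (B0 : ℝ) * Real.log L := by positivity
  have hLB : L ≤ L ^ B0 := le_self_pow₀ hL1 (by omega)
  have hex : ∃ J : ℕ, L ^ B0 ≤ ((w0 ^ 2 ^ J : ℕ) : ℝ) := by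
    obtain ⟨m, hm⟩ := exists_nat_ge (L ^ B0)
    refine ⟨m, hm.trans ?_⟩
    have h7 : m ≤ w0 ^ 2 ^ m := by
      calc m ≤ 2 ^ m := Nat.lt_two_pow_self.le
        _ ≤ w0 ^ 2 ^ m := by
            calc 2 ^ m ≤ 2 ^ 2 ^ m := Nat.pow_le_pow_right (by norm_num) Nat.lt_two_pow_self.le
              _ ≤ w0 ^ 2 ^ m := Nat.pow_le_pow_left (by omega) _
    exact_mod_cast h7
  classical
  set J := Nat.find hex with hJ
  have hJs : L ^ B0 ≤ ((w0 ^ 2 ^ J : ℕ) : ℝ) := Nat.find_spec hex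
  have hJ1 : 1 ≤ J := by
    by_contra hcon
    have hJ0 : J = 0 := by omega
    rw [hJ0] at hJs
    simp only [pow_zero, pow_one] at hJs
    linarith
  have hJm : ((w0 ^ 2 ^ (J - 1) : ℕ) : ℝ) < L ^ B0 := by
    have := Nat.find_min hex (show J - 1 < J by omega)
    exact not_le.1 this
  have hsq : w0 ^ 2 ^ J = (w0 ^ 2 ^ (J - 1)) ^ 2 := by
    rw [← pow_mul, ← pow_succ, Nat.sub_add_cancel hJ1]
  have hz2 : ((w0 ^ 2 ^ J : ℕ) : ℝ) ≤ L ^ (2 * B0) := by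
    rw [hsq, mul_comm 2 B0, pow_mul]
    push_cast
    push_cast at hJm
    exact pow_le_pow_left₀ (by positivity) hJm.le 2
  have hJL : (J : ℝ) ≤ L := by
    have h7 : (4 : ℝ) ^ (J - 1) < L ^ B0 := by
      refine lt_of_le_of_lt ?_ hJm
      have h8 : 4 ^ (J - 1) ≤ w0 ^ 2 ^ (J - 1) := by
        calc 4 ^ (J - 1) ≤ w0 ^ (J - 1) := Nat.pow_le_pow_left hw04 _
          _ ≤ w0 ^ 2 ^ (J - 1) := Nat.pow_le_pow_right (by omega) Nat.lt_two_pow_self.le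
      exact_mod_cast h8
    have h8 := Real.log_lt_log (by positivity) h7
    rw [Real.log_pow, Real.log_pow] at h8
    have h9 : 1 ≤ Real.log 4 := by
      rw [← Real.log_exp 1]
      apply Real.log_le_log (Real.exp_pos _)
      have := Real.exp_one_lt_d9
      linarith
    have h10 : (((J - 1 : ℕ)) : ℝ) ≤ ((J - 1 : ℕ) : ℝ) * Real.log 4 := le_mul_of_one_le_right (Nat.cast_nonneg _) h9
    have h11 : (J : ℝ) = ((J - 1 : ℕ) : ℝ) + 1 := by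
      rw [← Nat.cast_add_one, Nat.sub_add_cancel hJ1]
    rw [h11]
    have h12 : (0 : ℝ) ≤ w0 := Nat.cast_nonneg _
    linarith
  refine ⟨w0 ^ 2 ^ J, hJs, hz2, Nat.one_le_pow _ _ (by omega), fun D c w hG hk => ?_⟩
  have hstep : ∀ j : ℕ, j < J → ‖Sw D c N w (lamz (w0 ^ 2 ^ (j + 1))) - Sw D c N w (lamz (w0 ^ 2 ^ j))‖ ≤
      (Box V N).card * (1 / √((w0 ^ 2 ^ j : ℕ) : ℝ)) + (Box V N).card * (k * Q / L ^ 2) := by
    intro j hj
    have hle : w0 ^ 2 ^ j ≤ w0 ^ 2 ^ (j + 1) := Nat.pow_le_pow_right (by omega) (Nat.pow_le_pow_right (by norm_num) (by omega))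
    have hle2 : w0 ^ 2 ^ (j + 1) ≤ w0 ^ 2 ^ J := Nat.pow_le_pow_right (by omega) (Nat.pow_le_pow_right (by norm_num) (by omega))
    have h7 := h1 N hn1 (w0 ^ 2 ^ j) (w0 ^ 2 ^ (j + 1)) (Nat.one_le_pow _ _ (by omega)) hle
      (le_trans (by exact_mod_cast hle2) hz2) D c w hG hk
    refine h7.trans ?_
    rw [← mul_add]
    apply mul_le_mul_of_nonneg_left _ (Nat.cast_nonneg _)
    apply add_le_add _ le_rfl
    set w' := w0 ^ 2 ^ j with hw'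
    have hw'0 : w0 ≤ w' := Nat.le_self_pow (by positivity) _
    have hw'r : (4 : ℝ) ≤ w' := by exact_mod_cast hw04.trans hw'0
    have hw'p : (0 : ℝ) < w' := by linarith
    have hz' : w0 ^ 2 ^ (j + 1) = w' ^ 2 := by rw [hw', ← pow_mul, pow_succ]
    have h8 : (Vz (w0 ^ 2 ^ (j + 1)))⁻¹ ≤ 4 * C * Real.log w' ^ 2 := by
      refine (hC _ (by rw [hz']; nlinarith [hw04.trans hw'0])).trans (le_of_eq ?_)
      rw [hz']
      push_cast
      rw [Real.log_pow]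
      push_cast
      ring
    have hlw : 0 ≤ Real.log w' := Real.log_nonneg (by linarith)
    have h9 : (Vz (w0 ^ 2 ^ (j + 1)))⁻¹ ^ k ≤ (4 * C * Real.log w' ^ 2) ^ k :=
      pow_le_pow_left₀ (inv_nonneg.2 (Vz_pos _).le) h8 k
    have h10 := hx0 w' (hw0x.trans hw'0)
    have hsw : 0 < √(w' : ℝ) := Real.sqrt_pos.2 hw'p
    calc (k : ℝ) * (Vz (w0 ^ 2 ^ (j + 1)))⁻¹ ^ k * (4 * Q / w') ≤ k * (4 * C * Real.log w' ^ 2) ^ k * (4 * Q / w') := by gcongr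
      _ = (k * (4 * C) ^ k * (4 * Q) * Real.log w' ^ (2 * k)) / w' := by
          rw [mul_pow, ← pow_mul]
          ring
      _ ≤ √(w' : ℝ) / w' := by gcongr
      _ = 1 / √(w' : ℝ) := by
          rw [div_eq_div_iff hw'p.ne' hsw.ne', one_mul]
          exact Real.mul_self_sqrt hw'p.le
  have h7 := chain_abs (fun z => Sw D c N w (lamz z)) w0 hw04 (Box V N).card ((Box V N).card * (k * Q / L ^ 2)) (Nat.cast_nonneg _) J hstep
  refine h7.trans ?_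
  have h8 : (J : ℝ) * (k * Q / L ^ 2) ≤ 1 / √(w0 : ℝ) := by
    calc (J : ℝ) * (k * Q / L ^ 2) ≤ L * (k * Q / L ^ 2) := mul_le_mul_of_nonneg_right hJL (by positivity)
      _ = k * Q / L := by field_simp
      _ ≤ 1 / √(w0 : ℝ) := by
          rw [div_le_div_iff₀ hL0 hs0, one_mul]
          exact h6
  have h9 : ((Box V N).card : ℝ) * (2 / √(w0 : ℝ)) + J * ((Box V N).card * (k * Q / L ^ 2)) =
      (Box V N).card * (2 / √(w0 : ℝ) + J * (k * Q / L ^ 2)) := by ring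
  rw [h9]
  apply mul_le_mul_of_nonneg_left _ (Nat.cast_nonneg _)
  have h10 : 3 / √(w0 : ℝ) = 2 / √(w0 : ℝ) + 1 / √(w0 : ℝ) := by ring
  rw [h10]
  linarith

end Pool.Agent.H68.GR
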