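import Mathlib
import Pool.Agent.H68.GR.Scale
import Pool.Graph.R_seed8.H373R2.T7.Crt

set_option autoImplicit false
set_option linter.unusedVariables false
set_option linter.unusedSectionVars false

/-! Averages over windows. -/

namespace Pool.Agent.H68.GR
open Finset
open Pool.Agent.H373R2.T7
open Pool.Agent.H807R2.Dav

variable {V : Type*} [Fintype V] [DecidableEq V] {ι : Type*} [DecidableEq ι]

/-- the von Mangoldt function up to `K` -/
noncomputable def lamT (K n : ℕ) : ℝ := if n ≤ K then ArithmeticFunction.vonMangoldt n else 0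

lemma lamT_nonneg (K n : ℕ) : 0 ≤ lamT K n := by
  unfold lamT; split_ifs
  · exact ArithmeticFunction.vonMangoldt_nonneg
  · exact le_rfl

lemma lamT_abs (K : ℕ) (hK : 1 ≤ K) (n : ℕ) : |lamT K n| ≤ Real.log K := by
  rw [abs_of_nonneg (lamT_nonneg K n)]
  unfold lamT
  split_ifs with h
  · rcases Nat.eq_zero_or_pos n with h0 | h0
    · rw [h0]; simp; exact Real.log_natCast_nonneg _
    · exact ArithmeticFunction.vonMangoldt_le_log.trans (Real.log_le_log (by exact_mod_cast h0) (by exact_mod_cast h))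
  · exact Real.log_natCast_nonneg _

lemma lam_step (k Q : ℕ) (hQ : 1 ≤ Q) : ∃ B0 : ℕ, 1 ≤ B0 ∧ ∃ N0 : ℕ, ∀ N : ℕ, N0 ≤ N → ∀ z : ℕ, 1 ≤ z →
    Real.log ((Q * N : ℕ) : ℝ) ^ B0 ≤ z → (z : ℝ) ≤ Real.log ((Q * N : ℕ) : ℝ) ^ (2 * B0) →
    ∀ (D : Edges V ι) (c : ι → ℕ) (w : (V → ℕ) → ℂ), Good D c N (Q * N) w → D.E.card ≤ k →
      ‖Sw D c N w (lamT (Q * N)) - Sw D c N w (lamz z)‖ ≤ (Box V N).card * (k * Q / Real.log ((Q * N : ℕ) : ℝ)) := by
  obtain ⟨B, hB⟩ := sup_diff (k + 1)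
  obtain ⟨n1, h1⟩ := hB (2 * (B + 1))
  obtain ⟨n2, h2⟩ := Vz_inv_small (2 * (B + 1))
  obtain ⟨n3, h3⟩ := ev_L' 1
  refine ⟨B + 1, by omega, max (max n1 n2) (max n3 1), fun N hN z hz1 hzl hzu D c w hG hk => ?_⟩
  have hN1 : 1 ≤ N := le_trans (le_trans (le_max_right _ _) (le_max_right _ _)) hN
  have hNK : N ≤ Q * N := Nat.le_mul_of_pos_left _ hQ
  have hn1 : n1 ≤ Q * N := (le_trans (le_trans (le_max_left _ _) (le_max_left _ _)) hN).trans hNK
  have hn2 : n2 ≤ Q * N := (le_trans (le_trans (le_max_right _ _) (le_max_left _ _)) hN).trans hNK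
  have hn3 : n3 ≤ Q * N := (le_trans (le_trans (le_max_left _ _) (le_max_right _ _)) hN).trans hNK
  set K := Q * N with hK
  have hK1 : 1 ≤ K := hN1.trans hNK
  set L := Real.log (K : ℝ) with hL
  have hL1 : 1 ≤ L := h3 K hn3
  have hL0 : 0 < L := by linarith
  have hzB : L ^ B ≤ z := (pow_le_pow_right₀ hL1 (by omega)).trans hzl
  have h4 := Sw_diff D c N K Q hN1 w hG (lamT K) (lamz z) L hL1 (lamT_abs K hK1)
    (fun n => (lamz_abs le_rfl n).trans (h2 K hn2 z hz1 hzu)) (1 / L ^ (k + 1)) (fun α => by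
      have h5 := h1 K hn1 z hzB hzu α
      have h6 : ∑ n ∈ Icc 1 K, ((lamT K n - lamz z n : ℝ) : ℂ) * ee ((n : ℝ) * α) =
          ∑ n ∈ Icc 1 K, ((ArithmeticFunction.vonMangoldt n - lamz z n : ℝ) : ℂ) * ee ((n : ℝ) * α) := by
        apply sum_congr rfl
        intro n hn
        rw [mem_Icc] at hn
        unfold lamT
        rw [if_pos hn.2]
      rw [h6]
      refine h5.trans (le_of_eq ?_)
      rw [← hL]
      ring) hK k hk
  refine h4.trans ?_
  apply mul_le_mul_of_nonneg_left _ (Nat.cast_nonneg _)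
  apply le_of_eq
  rw [pow_succ]
  field_simp

/-- **From the primes to a fixed sieve.** -/
theorem main_fixed (k Q : ℕ) (hQ : 1 ≤ Q) : ∃ W0 : ℕ, ∀ w0 : ℕ, W0 ≤ w0 → ∃ N0 : ℕ, ∀ N : ℕ, N0 ≤ N →
    ∀ (D : Edges V ι) (c : ι → ℕ) (w : (V → ℕ) → ℂ), Good D c N (Q * N) w → D.E.card ≤ k →
      ‖Sw D c N w (lamT (Q * N)) - Sw D c N w (lamz w0)‖ ≤ (Box V N).card * (4 / √(w0 : ℝ)) := by
  obtain ⟨B0, hB0, n1, h1⟩ := lam_step (V := V) (ι := ι) k Q hQ
  obtain ⟨W0, hW⟩ := scale_chain (V := V) (ι := ι) k Q B0 hQ hB0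
  refine ⟨max W0 1, fun w0 hw0 => ?_⟩
  obtain ⟨n2, h2⟩ := hW w0 (le_trans (le_max_left _ _) hw0)
  have hw01 : (1 : ℝ) ≤ w0 := by exact_mod_cast (le_trans (le_max_right _ _) hw0)
  have hs0 : 0 < √(w0 : ℝ) := Real.sqrt_pos.2 (by linarith)
  obtain ⟨n3, h3⟩ := ev_L' (k * Q * √(w0 : ℝ) + 1)
  refine ⟨max (max n1 n2) n3, fun N hN D c w hG hk => ?_⟩
  have hNK : N ≤ Q * N := Nat.le_mul_of_pos_left _ hQ
  obtain ⟨z, hz1, hz2, hz3, hz4⟩ := h2 N (le_trans (le_trans (le_max_right _ _) (le_max_left _ _)) hN)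
  have h4 := h1 N (le_trans (le_trans (le_max_left _ _) (le_max_left _ _)) hN) z hz3 hz1 hz2 D c w hG hk
  have h5 := hz4 D c w hG hk
  have h6 := h3 (Q * N) ((le_trans (le_max_right _ _) hN).trans hNK)
  have e : Sw D c N w (lamT (Q * N)) - Sw D c N w (lamz w0) = (Sw D c N w (lamT (Q * N)) - Sw D c N w (lamz z)) +
      (Sw D c N w (lamz z) - Sw D c N w (lamz w0)) := by ring
  rw [e]
  refine (norm_add_le _ _).trans ((add_le_add h4 h5).trans ?_)
  rw [← mul_add]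
  apply mul_le_mul_of_nonneg_left _ (Nat.cast_nonneg _)
  set L := Real.log ((Q * N : ℕ) : ℝ) with hL
  have hL0 : 0 < L := by
    have : (0 : ℝ) ≤ k * Q * √(w0 : ℝ) := by positivity
    linarith
  have h7 : (k : ℝ) * Q / L ≤ 1 / √(w0 : ℝ) := by
    rw [div_le_div_iff₀ hL0 hs0, one_mul]
    linarith
  have h10 : 4 / √(w0 : ℝ) = 1 / √(w0 : ℝ) + 3 / √(w0 : ℝ) := by ring
  rw [h10]
  linarith

/-! ### The model over windows -/

/-- the product of the primes up to `w0` -/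
def Pw (w0 : ℕ) : ℕ := ∏ p ∈ pz w0, p

lemma Pw_pos (w0 : ℕ) : 0 < Pw w0 := prod_pos fun p hp => (mem_pz.1 hp).2.pos

lemma lamz_per (w0 n : ℕ) : lamz w0 (n + Pw w0) = lamz w0 n := by
  unfold lamz
  have : (∀ p ∈ pz w0, ¬ p ∣ n + Pw w0) ↔ (∀ p ∈ pz w0, ¬ p ∣ n) := by
    refine forall₂_congr fun p hp => ?_
    have hd : p ∣ Pw w0 := dvd_prod_of_mem (fun p => p) hp
    rw [Nat.dvd_add_left hd]
  simp only [this]

lemma mean_lamz (w0 : ℕ) : ∑ c ∈ range (Pw w0), lamz w0 c = Pw w0 := by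
  have hS : ∀ p ∈ pz w0, p.Prime := fun p hp => (mem_pz.1 hp).2
  have h1 : ∑ c ∈ range (Pw w0), lamz w0 c = (Vz w0)⁻¹ * (Nat.totient (Pw w0) : ℝ) := by
    unfold lamz
    rw [← sum_filter, sum_const, nsmul_eq_mul, mul_comm]
    congr 2
    rw [Nat.totient_eq_card_coprime]
    congr 1
    apply filter_congr
    intro c _
    unfold Pw
    rw [Nat.coprime_prod_left_iff]
    exact forall₂_congr fun p hp => ((Nat.Prime.coprime_iff_not_dvd (hS p hp))).symm
  rw [h1]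
  have h2 : (Nat.totient (Pw w0) : ℝ) = Pw w0 * Vz w0 := by
    unfold Pw
    rw [totient_prod _ hS]
    unfold Vz
    push_cast
    rw [← prod_mul_distrib]
    apply prod_congr rfl
    intro p hp
    have hp1 : 1 ≤ p := (hS p hp).one_lt.le
    rw [Nat.cast_sub hp1]
    have : (p : ℝ) ≠ 0 := by exact_mod_cast (hS p hp).ne_zero
    field_simp
    simp
  rw [h2]
  have := (Vz_pos w0).ne'
  field_simp

lemma window (w0 n : ℕ) : ∀ H : ℕ, |∑ h ∈ range H, lamz w0 (n + h) - H| ≤ Pw w0 * (Vz w0)⁻¹ := by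
  have hP := Pw_pos w0
  have hV := one_le_Vinv w0
  have hV0 : 0 ≤ (Vz w0)⁻¹ := by linarith
  intro H
  induction H using Nat.strong_induction_on with
  | _ H ih =>
    by_cases hH : H < Pw w0
    · have h1 : 0 ≤ ∑ h ∈ range H, lamz w0 (n + h) := sum_nonneg fun _ _ => lamz_nonneg _ _
      have h2 : ∑ h ∈ range H, lamz w0 (n + h) ≤ H * (Vz w0)⁻¹ := by
        have : ∀ h ∈ range H, lamz w0 (n + h) ≤ (Vz w0)⁻¹ := fun h _ => (le_abs_self _).trans (lamz_abs le_rfl _)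
        refine (sum_le_sum this).trans ?_
        rw [sum_const, card_range, nsmul_eq_mul]
      have h3 : (H : ℝ) ≤ Pw w0 := by exact_mod_cast hH.le
      have h4 : (H : ℝ) * (Vz w0)⁻¹ ≤ Pw w0 * (Vz w0)⁻¹ := mul_le_mul_of_nonneg_right h3 hV0
      have h5 : (Pw w0 : ℝ) ≤ Pw w0 * (Vz w0)⁻¹ := le_mul_of_one_le_right (Nat.cast_nonneg _) hV
      have h6 : (0 : ℝ) ≤ H := Nat.cast_nonneg _
      rw [abs_le]
      constructor <;> linarith
    · have h1 := ih (H - Pw w0) (by omega)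
      have h2 : ∑ h ∈ range H, lamz w0 (n + h) = ∑ h ∈ range (H - Pw w0), lamz w0 (n + h) + Pw w0 := by
        have h3 : H = (H - Pw w0) + Pw w0 := by omega
        conv_lhs => rw [h3]
        rw [sum_range_add]
        congr 1
        have h4 := periodic_shift' (lamz w0) (Pw w0) (lamz_per w0) (n + (H - Pw w0))
        rw [mean_lamz] at h4
        rw [← h4]
        apply sum_congr rfl
        intro h _
        congr 1
        omega
      rw [h2]
      have h3 : ((H - Pw w0 : ℕ) : ℝ) = H - Pw w0 := by rw [Nat.cast_sub (by omega)]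
      rw [h3] at h1
      have e : ∑ h ∈ range (H - Pw w0), lamz w0 (n + h) + (Pw w0 : ℝ) - H = ∑ h ∈ range (H - Pw w0), lamz w0 (n + h) - (H - Pw w0) := by ring
      rw [e]
      exact h1

/-- the average over a window -/
noncomputable def wa (f : ℕ → ℝ) (H n : ℕ) : ℝ := (1 / (H : ℝ)) * ∑ h ∈ Icc 1 H, f (n + h)

lemma wa_lamz (w0 H n : ℕ) (hH : 1 ≤ H) : |wa (lamz w0) H n - 1| ≤ Pw w0 * (Vz w0)⁻¹ / H := by
  have hH0 : (0 : ℝ) < H := by exact_mod_cast hH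
  have h1 := window w0 (n + 1) H
  have h2 : ∑ h ∈ Icc 1 H, lamz w0 (n + h) = ∑ h ∈ range H, lamz w0 (n + 1 + h) := by
    rw [range_eq_Ico, sum_Ico_eq_sum_range, ← Ico_succ_right_eq_Icc, sum_Ico_eq_sum_range]
    simp only [Nat.sub_zero, zero_add]
    apply sum_congr (by simp)
    intro h _
    congr 1
    ring
  unfold wa
  rw [h2]
  have e : 1 / (H : ℝ) * ∑ h ∈ range H, lamz w0 (n + 1 + h) - 1 = (1 / (H : ℝ)) * (∑ h ∈ range H, lamz w0 (n + 1 + h) - H) := by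
    field_simp
  rw [e, abs_mul, abs_of_pos (by positivity)]
  calc 1 / (H : ℝ) * |∑ h ∈ range H, lamz w0 (n + 1 + h) - H| ≤ 1 / H * (Pw w0 * (Vz w0)⁻¹) := by gcongr
    _ = _ := by ring

/-- the weighted sum of the products of the averages over windows -/
noncomputable def Swin (D : Edges V ι) (c : ι → ℕ) (N : ℕ) (w : (V → ℕ) → ℂ) (f : ℕ → ℝ) (H : ι → ℕ) : ℂ :=
  ∑ x ∈ Box V N, w x * ((∏ e ∈ D.E, wa f (H e) (D.L c e x) : ℝ) : ℂ)

lemma prod_wa [Fintype ι] (D : Edges V ι) (c : ι → ℕ) (f : ℕ → ℝ) (H : ι → ℕ) (hH : ∀ e, 1 ≤ H e) (x : V → ℕ) :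
    ∏ e ∈ D.E, wa f (H e) (D.L c e x) = (∏ e : ι, (1 / (H e : ℝ))) *
      ∑ h ∈ Fintype.piFinset (fun e : ι => Icc 1 (H e)), ∏ e ∈ D.E, f (D.L (c + h) e x) := by
  have hH0 : ∀ e, (H e : ℝ) ≠ 0 := by
    intro e
    have : (0 : ℝ) < H e := by exact_mod_cast hH e
    exact this.ne'
  have h1 : ∏ e ∈ D.E, wa f (H e) (D.L c e x) = ∏ e : ι, ∑ h ∈ Icc 1 (H e), (1 / (H e : ℝ)) * (if e ∈ D.E then f (D.L c e x + h) else 1) := by
    rw [← prod_filter_mul_prod_filter_not univ (fun e => e ∈ D.E)]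
    have h2 : (univ : Finset ι).filter (fun e => e ∈ D.E) = D.E := by ext e; simp
    rw [h2]
    have h3 : ∏ e ∈ univ.filter (fun e => e ∉ D.E), ∑ h ∈ Icc 1 (H e), (1 / (H e : ℝ)) * (if e ∈ D.E then f (D.L c e x + h) else 1) = 1 := by
      apply prod_eq_one
      intro e he
      rw [mem_filter] at he
      simp only [if_neg he.2, mul_one, sum_const, Nat.card_Icc, Nat.add_sub_cancel, nsmul_eq_mul]
      have := hH0 e
      field_simp
    rw [h3, mul_one]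
    apply prod_congr rfl
    intro e he
    simp only [if_pos he]
    unfold wa
    rw [mul_sum]
  rw [h1, prod_univ_sum, mul_sum]
  apply sum_congr rfl
  intro h _
  rw [prod_mul_distrib]
  congr 1
  rw [← prod_filter_mul_prod_filter_not univ (fun e => e ∈ D.E)]
  have h2 : (univ : Finset ι).filter (fun e => e ∈ D.E) = D.E := by ext e; simp
  rw [h2]
  have h3 : ∏ e ∈ univ.filter (fun e => e ∉ D.E), (if e ∈ D.E then f (D.L c e x + h e) else 1) = 1 := by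
    apply prod_eq_one
    intro e he
    rw [mem_filter] at he
    rw [if_neg he.2]
  rw [h3, mul_one]
  apply prod_congr rfl
  intro e he
  rw [if_pos he]
  congr 1
  unfold Edges.L lf
  simp only [Pi.add_apply]
  ring

lemma Swin_eq [Fintype ι] (D : Edges V ι) (c : ι → ℕ) (N : ℕ) (w : (V → ℕ) → ℂ) (f : ℕ → ℝ) (H : ι → ℕ) (hH : ∀ e, 1 ≤ H e) :
    Swin D c N w f H = ((∏ e : ι, (1 / (H e : ℝ)) : ℝ) : ℂ) * ∑ h ∈ Fintype.piFinset (fun e : ι => Icc 1 (H e)), Sw D (c + h) N w f := by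
  unfold Swin Sw
  rw [sum_comm, mul_sum]
  apply sum_congr rfl
  intro x _
  rw [prod_wa D c f H hH x]
  push_cast
  simp only [mul_sum]
  apply sum_congr rfl
  intro h _
  ring

lemma Swin_diff [Fintype ι] (D : Edges V ι) (c : ι → ℕ) (N : ℕ) (w : (V → ℕ) → ℂ) (f f' : ℕ → ℝ) (H : ι → ℕ) (hH : ∀ e, 1 ≤ H e) (M : ℝ)
    (h : ∀ h ∈ Fintype.piFinset (fun e : ι => Icc 1 (H e)), ‖Sw D (c + h) N w f - Sw D (c + h) N w f'‖ ≤ M) :
    ‖Swin D c N w f H - Swin D c N w f' H‖ ≤ M := by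
  have hH0 : ∀ e, (0 : ℝ) < H e := fun e => by exact_mod_cast hH e
  rw [Swin_eq D c N w f H hH, Swin_eq D c N w f' H hH, ← mul_sub, ← sum_sub_distrib, norm_mul, Complex.norm_real,
    Real.norm_of_nonneg (prod_nonneg fun e _ => by positivity)]
  have h1 := (norm_sum_le (Fintype.piFinset (fun e : ι => Icc 1 (H e))) (fun h => Sw D (c + h) N w f - Sw D (c + h) N w f')).trans (sum_le_sum h)
  rw [sum_const, Fintype.card_piFinset] at h1
  simp only [Nat.card_Icc, Nat.add_sub_cancel, nsmul_eq_mul] at h1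
  calc (∏ e : ι, (1 / (H e : ℝ))) * _ ≤ (∏ e : ι, (1 / (H e : ℝ))) * (((∏ e : ι, H e : ℕ) : ℝ) * M) :=
        mul_le_mul_of_nonneg_left h1 (prod_nonneg fun e _ => by positivity)
    _ = M := by
        push_cast
        rw [← mul_assoc, ← prod_mul_distrib, prod_eq_one, one_mul]
        intro e _
        have := (hH0 e).ne'
        field_simp

lemma prod_near_one {κ : Type*} (T : Finset κ) (g : κ → ℝ) (θ : ℝ) (hθ0 : 0 ≤ θ) (hθ1 : θ ≤ 1) (h : ∀ e ∈ T, |g e - 1| ≤ θ) :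
    |∏ e ∈ T, g e - 1| ≤ (2 ^ T.card - 1) * θ ∧ |∏ e ∈ T, g e| ≤ 2 ^ T.card := by
  classical
  induction T using Finset.induction_on with
  | empty => simp
  | insert e T he ih =>
    obtain ⟨h1, h2⟩ := ih (fun e' h' => h e' (mem_insert_of_mem h'))
    have h3 := h e (mem_insert_self _ _)
    have h4 : |g e| ≤ 2 := by
      have : g e = (g e - 1) + 1 := by ring
      rw [this]
      refine (abs_add_le _ _).trans ?_
      rw [abs_one]
      linarith
    rw [prod_insert he, card_insert_of_notMem he]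
    constructor
    · have e1 : g e * ∏ e ∈ T, g e - 1 = (g e - 1) * ∏ e ∈ T, g e + (∏ e ∈ T, g e - 1) := by ring
      rw [e1]
      refine (abs_add_le _ _).trans ?_
      rw [abs_mul]
      calc |g e - 1| * |∏ e ∈ T, g e| + |∏ e ∈ T, g e - 1| ≤ θ * 2 ^ T.card + (2 ^ T.card - 1) * θ := by
            apply add_le_add _ h1
            exact mul_le_mul h3 h2 (abs_nonneg _) hθ0
        _ = (2 ^ (T.card + 1) - 1) * θ := by rw [pow_succ]; ring
    · rw [abs_mul, pow_succ, mul_comm (2 ^ T.card) 2]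
      exact mul_le_mul h4 h2 (abs_nonneg _) (by norm_num)

/-- **The main theorem for the von Mangoldt function.** -/
theorem main_win [Fintype ι] (k Q' : ℕ) (ε : ℝ) (hε : 0 < ε) : ∃ K0 : ℕ, 1 ≤ K0 ∧ ∃ N0 : ℕ, ∀ N : ℕ, N0 ≤ N →
    ∀ H : ι → ℕ, (∀ e, K0 ≤ H e) → (∀ e, H e ≤ N) → ∀ (D : Edges V ι) (c : ι → ℕ) (w : (V → ℕ) → ℂ), (∀ x, ‖w x‖ ≤ 1) →
    Good D c N (Q' * N) w → D.E.card ≤ k →
      ‖Swin D c N w (lamT ((Q' + 1) * N)) H - ∑ x ∈ Box V N, w x‖ ≤ ε * (Box V N).card := by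
  obtain ⟨W0, hW⟩ := main_fixed (V := V) (ι := ι) k (Q' + 1) (by omega)
  obtain ⟨w1, hw1⟩ := exists_nat_ge ((8 / ε) ^ 2)
  set w0 : ℕ := max (max W0 w1) 1 with hw0
  obtain ⟨N0, hN0⟩ := hW w0 (le_trans (le_max_left _ _) (le_max_left _ _))
  have hw0r : (8 / ε) ^ 2 ≤ (w0 : ℝ) := hw1.trans (by exact_mod_cast le_trans (le_max_right _ _) (le_max_left _ _))
  have hsw : 8 / ε ≤ √(w0 : ℝ) := Real.le_sqrt_of_sq_le hw0r
  have h8 : 0 < 8 / ε := by positivity
  have h4s : 4 / √(w0 : ℝ) ≤ ε / 2 := by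
    calc 4 / √(w0 : ℝ) ≤ 4 / (8 / ε) := div_le_div_of_nonneg_left (by norm_num) h8 hsw
      _ = ε / 2 := by field_simp; norm_num
  set θ0 : ℝ := Pw w0 * (Vz w0)⁻¹ with hθ0
  have hV := one_le_Vinv w0
  have hθ0p : 0 ≤ θ0 := by
    have : 0 ≤ (Vz w0)⁻¹ := by linarith
    positivity
  obtain ⟨K1, hK1⟩ := exists_nat_ge (θ0 * (2 ^ k * 2 / ε) + θ0 + 1)
  have hK1p : (0 : ℝ) < K1 := by
    have : 0 ≤ θ0 * (2 ^ k * 2 / ε) := by positivity
    linarith
  refine ⟨max K1 1, le_max_right _ _, N0, fun N hN H hH hHN D c w hwn hG hk => ?_⟩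
  have hH1 : ∀ e, 1 ≤ H e := fun e => le_trans (le_max_right _ _) (hH e)
  have h1 : ‖Swin D c N w (lamT ((Q' + 1) * N)) H - Swin D c N w (lamz w0) H‖ ≤ (Box V N).card * (4 / √(w0 : ℝ)) := by
    apply Swin_diff D c N w _ _ H hH1
    intro h hh
    rw [Fintype.mem_piFinset] at hh
    apply hN0 N hN D (c + h) w _ hk
    refine ⟨fun e he x hx y hy => ?_, hG.hw⟩
    have h2 := hG.hK e he x hx y hy
    have h3 := hh e
    rw [mem_Icc] at h3
    have h4 := hHN e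
    simp only [Pi.add_apply]
    calc D.a e * x + D.b e * y + (c e + h e) = (D.a e * x + D.b e * y + c e) + h e := by ring
      _ ≤ Q' * N + N := by omega
      _ = (Q' + 1) * N := by ring
  set θ : ℝ := θ0 / K1 with hθ
  have hθp : 0 ≤ θ := by positivity
  have hθ1 : θ ≤ 1 := by
    rw [hθ, div_le_one hK1p]
    have : 0 ≤ θ0 * (2 ^ k * 2 / ε) := by positivity
    linarith
  have hθε : 2 ^ k * θ ≤ ε / 2 := by
    rw [hθ, ← mul_div_assoc, div_le_iff₀ hK1p]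
    have h3 : θ0 * (2 ^ k * 2 / ε) ≤ K1 := by linarith
    calc 2 ^ k * θ0 = ε / 2 * (θ0 * (2 ^ k * 2 / ε)) := by field_simp
      _ ≤ ε / 2 * K1 := mul_le_mul_of_nonneg_left h3 (by positivity)
  have h2 : ‖Swin D c N w (lamz w0) H - ∑ x ∈ Box V N, w x‖ ≤ (Box V N).card * (ε / 2) := by
    unfold Swin
    rw [← sum_sub_distrib]
    refine (norm_sum_le _ _).trans ?_
    rw [← nsmul_eq_mul, ← sum_const]
    apply sum_le_sum
    intro x _
    have e1 : w x * ((∏ e ∈ D.E, wa (lamz w0) (H e) (D.L c e x) : ℝ) : ℂ) - w x =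
        w x * (((∏ e ∈ D.E, wa (lamz w0) (H e) (D.L c e x)) - 1 : ℝ) : ℂ) := by push_cast; ring
    rw [e1, norm_mul, Complex.norm_real, Real.norm_eq_abs]
    have h3 := (prod_near_one D.E (fun e => wa (lamz w0) (H e) (D.L c e x)) θ hθp hθ1 (fun e _ => by
      refine (wa_lamz w0 (H e) _ (hH1 e)).trans ?_
      rw [hθ]
      apply div_le_div_of_nonneg_left hθ0p hK1p
      exact_mod_cast le_trans (le_max_left _ _) (hH e))).1
    have h4 : ((2 : ℝ) ^ D.E.card - 1) * θ ≤ 2 ^ k * θ := by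
      apply mul_le_mul_of_nonneg_right _ hθp
      have : (2 : ℝ) ^ D.E.card ≤ 2 ^ k := pow_le_pow_right₀ (by norm_num) hk
      linarith
    calc ‖w x‖ * |∏ e ∈ D.E, wa (lamz w0) (H e) (D.L c e x) - 1| ≤ 1 * (ε / 2) :=
          mul_le_mul (hwn x) ((h3.trans h4).trans hθε) (abs_nonneg _) zero_le_one
      _ = ε / 2 := one_mul _
  have e : Swin D c N w (lamT ((Q' + 1) * N)) H - ∑ x ∈ Box V N, w x =
      (Swin D c N w (lamT ((Q' + 1) * N)) H - Swin D c N w (lamz w0) H) + (Swin D c N w (lamz w0) H - ∑ x ∈ Box V N, w x) := by ring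
  rw [e]
  refine (norm_add_le _ _).trans ((add_le_add h1 h2).trans ?_)
  have h5 := mul_le_mul_of_nonneg_left h4s (Nat.cast_nonneg (α := ℝ) (Box V N).card)
  linarith

end Pool.Agent.H68.GR
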