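import Mathlib
import Pool.Agent.H68.GR.Win

set_option autoImplicit false
set_option linter.unusedVariables false
set_option linter.unusedSectionVars false

/-! From the von Mangoldt function to the primes. -/

namespace Pool.Agent.H68.GR
open Finset
open Pool.Agent.H373R2.T7
open Pool.Agent.H807R2.Dav

variable {V : Type*} [Fintype V] [DecidableEq V] {ι : Type*} [DecidableEq ι]

/-- the logarithm at the primes up to `K` -/
noncomputable def lamP (K n : ℕ) : ℝ := if n ≤ K ∧ n.Prime then Real.log n else 0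

/-- the indicator function of the primes -/
noncomputable def onP (n : ℕ) : ℝ := if n.Prime then 1 else 0

lemma onP_nonneg (n : ℕ) : 0 ≤ onP n := by unfold onP; split_ifs <;> norm_num

lemma lamP_nonneg (K n : ℕ) : 0 ≤ lamP K n := by
  unfold lamP; split_ifs
  · exact Real.log_natCast_nonneg _
  · exact le_rfl

lemma lamP_le (K n : ℕ) : lamP K n ≤ lamT K n := by
  unfold lamP
  split_ifs with h
  · unfold lamT
    rw [if_pos h.1, ArithmeticFunction.vonMangoldt_apply_prime h.2]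
  · exact lamT_nonneg K n

lemma wa_nonneg (f : ℕ → ℝ) (hf : ∀ n, 0 ≤ f n) (H n : ℕ) : 0 ≤ wa f H n :=
  mul_nonneg (by positivity) (sum_nonneg fun _ _ => hf _)

lemma wa_mono (f g : ℕ → ℝ) (hfg : ∀ n, f n ≤ g n) (H n : ℕ) : wa f H n ≤ wa g H n :=
  mul_le_mul_of_nonneg_left (sum_le_sum fun _ _ => hfg _) (by positivity)

lemma wa_le (f : ℕ → ℝ) (B : ℝ) (hB : 0 ≤ B) (hf : ∀ n, f n ≤ B) (H n : ℕ) : wa f H n ≤ B := by
  unfold wa
  rcases Nat.eq_zero_or_pos H with h | h
  · rw [h]; simpa using hB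
  · have hH : (0 : ℝ) < H := by exact_mod_cast h
    calc 1 / (H : ℝ) * ∑ h ∈ Icc 1 H, f (n + h) ≤ 1 / (H : ℝ) * ∑ h ∈ Icc 1 H, B := by gcongr; exact hf _
      _ = B := by
          rw [sum_const, Nat.card_Icc, Nat.add_sub_cancel, nsmul_eq_mul]
          field_simp

lemma wa_comp (f g : ℕ → ℝ) (κ : ℝ) (H n : ℕ) (h : ∀ m, n < m → m ≤ n + H → f m ≤ κ * g m) : wa f H n ≤ κ * wa g H n := by
  unfold wa
  rw [mul_left_comm]
  apply mul_le_mul_of_nonneg_left _ (by positivity)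
  rw [mul_sum]
  apply sum_le_sum
  intro j hj
  rw [mem_Icc] at hj
  exact h _ (by omega) (by omega)

lemma prod_comp {κ : Type*} (T : Finset κ) (P Q : κ → ℝ) (θ : ℝ) (hθ0 : 0 ≤ θ) (hθ1 : θ ≤ 1) (hQ : ∀ e ∈ T, 0 ≤ Q e)
    (hP : ∀ e ∈ T, 0 ≤ P e) (h : ∀ e ∈ T, |P e - Q e| ≤ θ * Q e) :
    |∏ e ∈ T, P e - ∏ e ∈ T, Q e| ≤ 2 ^ T.card * θ * ∏ e ∈ T, Q e ∧ ∏ e ∈ T, P e ≤ 2 ^ T.card * ∏ e ∈ T, Q e := by
  classical
  suffices hh : |∏ e ∈ T, P e - ∏ e ∈ T, Q e| ≤ (2 ^ T.card - 1) * θ * ∏ e ∈ T, Q e ∧ ∏ e ∈ T, P e ≤ 2 ^ T.card * ∏ e ∈ T, Q e by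
    refine ⟨hh.1.trans ?_, hh.2⟩
    have h1 : 0 ≤ θ * ∏ e ∈ T, Q e := mul_nonneg hθ0 (prod_nonneg hQ)
    nlinarith
  induction T using Finset.induction_on with
  | empty => simp
  | insert e T he ih =>
    obtain ⟨h1, h2⟩ := ih (fun e' h' => hQ e' (mem_insert_of_mem h')) (fun e' h' => hP e' (mem_insert_of_mem h'))
      (fun e' h' => h e' (mem_insert_of_mem h'))
    have h3 := h e (mem_insert_self _ _)
    have hQe := hQ e (mem_insert_self _ _)
    have hPe := hP e (mem_insert_self _ _)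
    have hPT : 0 ≤ ∏ e ∈ T, P e := prod_nonneg fun e' h' => hP e' (mem_insert_of_mem h')
    have hQT : 0 ≤ ∏ e ∈ T, Q e := prod_nonneg fun e' h' => hQ e' (mem_insert_of_mem h')
    have h4 : P e ≤ 2 * Q e := by
      have := (abs_le.1 h3).2
      nlinarith
    rw [prod_insert he, prod_insert he, card_insert_of_notMem he]
    constructor
    · have e1 : P e * ∏ e ∈ T, P e - Q e * ∏ e ∈ T, Q e = (P e - Q e) * ∏ e ∈ T, P e + Q e * (∏ e ∈ T, P e - ∏ e ∈ T, Q e) := by ring
      rw [e1]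
      refine (abs_add_le _ _).trans ?_
      rw [abs_mul, abs_mul, abs_of_nonneg hPT, abs_of_nonneg hQe]
      calc |P e - Q e| * ∏ e ∈ T, P e + Q e * |∏ e ∈ T, P e - ∏ e ∈ T, Q e| ≤
          (θ * Q e) * (2 ^ T.card * ∏ e ∈ T, Q e) + Q e * ((2 ^ T.card - 1) * θ * ∏ e ∈ T, Q e) := by
            apply add_le_add
            · exact mul_le_mul h3 h2 hPT (by positivity)
            · exact mul_le_mul_of_nonneg_left h1 hQe
        _ = (2 ^ (T.card + 1) - 1) * θ * (Q e * ∏ e ∈ T, Q e) := by rw [pow_succ]; ring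
    · calc P e * ∏ e ∈ T, P e ≤ (2 * Q e) * (2 ^ T.card * ∏ e ∈ T, Q e) := mul_le_mul h4 h2 hPT (by positivity)
        _ = _ := by rw [pow_succ]; ring

lemma prod_diff_le {κ : Type*} (T : Finset κ) (Q R : κ → ℝ) (L : ℝ) (hL : 1 ≤ L) (hQ : ∀ e ∈ T, 0 ≤ Q e)
    (hQR : ∀ e ∈ T, Q e ≤ R e) (hR : ∀ e ∈ T, R e ≤ L) :
    ∏ e ∈ T, R e - ∏ e ∈ T, Q e ≤ L ^ T.card * ∑ e ∈ T, (R e - Q e) ∧ ∏ e ∈ T, R e ≤ L ^ T.card := by
  classical
  induction T using Finset.induction_on with
  | empty => simp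
  | insert e T he ih =>
    obtain ⟨h1, h2⟩ := ih (fun e' h' => hQ e' (mem_insert_of_mem h')) (fun e' h' => hQR e' (mem_insert_of_mem h'))
      (fun e' h' => hR e' (mem_insert_of_mem h'))
    have hQe := hQ e (mem_insert_self _ _)
    have hQRe := hQR e (mem_insert_self _ _)
    have hRe := hR e (mem_insert_self _ _)
    have hRT : 0 ≤ ∏ e ∈ T, R e := prod_nonneg fun e' h' => (hQ e' (mem_insert_of_mem h')).trans (hQR e' (mem_insert_of_mem h'))
    have hQT : ∏ e ∈ T, Q e ≤ ∏ e ∈ T, R e := prod_le_prod (fun e' h' => hQ e' (mem_insert_of_mem h')) (fun e' h' => hQR e' (mem_insert_of_mem h'))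
    have hS : 0 ≤ ∑ e ∈ T, (R e - Q e) := sum_nonneg fun e' h' => by linarith [hQR e' (mem_insert_of_mem h')]
    have hLT : 0 ≤ L ^ T.card := by positivity
    rw [prod_insert he, prod_insert he, card_insert_of_notMem he, sum_insert he, pow_succ]
    constructor
    · have e1 : R e * ∏ e ∈ T, R e - Q e * ∏ e ∈ T, Q e = (R e - Q e) * ∏ e ∈ T, R e + Q e * (∏ e ∈ T, R e - ∏ e ∈ T, Q e) := by ring
      rw [e1]
      have h3 : (R e - Q e) * ∏ e ∈ T, R e ≤ (R e - Q e) * (L ^ T.card * L) := by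
        apply mul_le_mul_of_nonneg_left _ (by linarith)
        exact h2.trans (le_mul_of_one_le_right hLT hL)
      have h4 : Q e * (∏ e ∈ T, R e - ∏ e ∈ T, Q e) ≤ L * (L ^ T.card * ∑ e ∈ T, (R e - Q e)) :=
        mul_le_mul (hQRe.trans hRe) h1 (by linarith) (by linarith)
      calc _ ≤ (R e - Q e) * (L ^ T.card * L) + L * (L ^ T.card * ∑ e ∈ T, (R e - Q e)) := add_le_add h3 h4
        _ = _ := by ring
    · rw [mul_comm (L ^ T.card) L]
      exact mul_le_mul hRe h2 hRT (by linarith)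

lemma avg_real (N : ℕ) (Φ : (V → ℕ) → ℝ) (i : V) :
    ∑ x ∈ Box V N, ∑ s ∈ Icc 1 N, Φ (Function.update x i s) = N * ∑ x ∈ Box V N, Φ x := by
  have h := avg_one N (fun x => ((Φ x : ℝ) : ℂ)) i
  exact_mod_cast h

lemma sum_coord (N : ℕ) (φ : ℕ → ℝ) (i : V) : N * ∑ x ∈ Box V N, φ (x i) = (Box V N).card * ∑ s ∈ Icc 1 N, φ s := by
  rw [← avg_real N (fun x => φ (x i)) i]
  simp only [Function.update_self, sum_const, nsmul_eq_mul]

/-- the sum over the box of a nonnegative function of a linear form -/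
lemma sum_lf (N K a b c : ℕ) (u v : V) (huv : u ≠ v) (ha : 1 ≤ a)
    (hK : ∀ x ∈ Icc 1 N, ∀ y ∈ Icc 1 N, a * x + b * y + c ≤ K) (g : ℕ → ℝ) (hg : ∀ n, 0 ≤ g n) :
    N * ∑ x ∈ Box V N, g (lf u v a b c x) ≤ (Box V N).card * ∑ n ∈ Icc 1 K, g n := by
  rw [← avg_real N (fun x => g (lf u v a b c x)) u, ← nsmul_eq_mul, ← sum_const]
  apply sum_le_sum
  intro x hx
  have hxv := mem_Box.1 hx v
  have h1 : ∀ s ∈ Icc 1 N, g (lf u v a b c (Function.update x u s)) = g (a * s + b * x v + c) := by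
    intro s _
    unfold lf
    rw [Function.update_self, Function.update_of_ne huv.symm]
  rw [sum_congr rfl h1]
  have h2 : ∑ s ∈ Icc 1 N, g (a * s + b * x v + c) = ∑ n ∈ (Icc 1 N).image (fun s => a * s + b * x v + c), g n := by
    rw [sum_image]
    intro s _ t _ hst
    simp only at hst
    have : a * s = a * t := by omega
    exact Nat.eq_of_mul_eq_mul_left (by omega) this
  rw [h2]
  apply sum_le_sum_of_subset_of_nonneg
  · intro n hn
    rw [mem_image] at hn
    obtain ⟨s, hs, rfl⟩ := hn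
    have h3 := hK s hs (x v) hxv
    rw [mem_Icc] at hs ⊢
    have : 1 * 1 ≤ a * s := Nat.mul_le_mul ha hs.1
    omega
  · intro n _ _
    exact hg n

lemma psi_theta (K : ℕ) (hK : 1 ≤ K) : ∑ n ∈ Icc 1 K, (lamT K n - lamP K n) ≤ 2 * √(K : ℝ) * Real.log K := by
  have h1 := Chebyshev.abs_psi_sub_theta_le_sqrt_mul_log (x := (K : ℝ)) (by exact_mod_cast hK)
  have e : Icc 1 K = Ioc 0 K := by ext; simp [Nat.lt_iff_add_one_le]
  have h2 : ∑ n ∈ Icc 1 K, lamT K n = Chebyshev.psi (K : ℝ) := by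
    unfold Chebyshev.psi
    rw [Nat.floor_natCast, e]
    apply sum_congr rfl
    intro n hn
    rw [mem_Ioc] at hn
    unfold lamT
    rw [if_pos hn.2]
  have h3 : ∑ n ∈ Icc 1 K, lamP K n = Chebyshev.theta (K : ℝ) := by
    unfold Chebyshev.theta
    rw [Nat.floor_natCast, e, sum_filter]
    apply sum_congr rfl
    intro n hn
    rw [mem_Ioc] at hn
    unfold lamP
    simp only [hn.2, true_and]
  rw [sum_sub_distrib, h2, h3]
  exact (le_abs_self _).trans h1

/-- indicator weights of one coordinate split at every edge -/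
lemma split_coord (D : Edges V ι) (i : V) (φ : ℕ → ℂ) (hφ : ∀ n, ‖φ n‖ ≤ 1) (e : ι) (he : e ∈ D.E) :
    SplitC 1 (fun x : V → ℕ => φ (x i)) (D.u e) (D.v e) := by
  by_cases h : D.u e = i
  · refine ⟨fun _ => 1, fun x => φ (x i), fun _ => by simp, fun x => hφ _, fun _ _ => rfl, fun x t => ?_, fun x => by simp⟩
    have hne : i ≠ D.v e := fun h2 => D.ne e he (h.trans h2)
    simp only [Function.update_of_ne hne]
  · refine ⟨fun x => φ (x i), fun _ => 1, fun x => hφ _, fun _ => by simp, fun x t => ?_, fun _ _ => rfl, fun x => by simp⟩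
    have hne : i ≠ D.u e := fun h2 => h h2.symm
    simp only [Function.update_of_ne hne]

lemma card_small_coord (N m : ℕ) (hN : 1 ≤ N) (i : V) (q : ℕ → Prop) [DecidablePred q] (h : ((Icc 1 N).filter q).card ≤ m) :
    ∑ x ∈ Box V N, (if q (x i) then (1 : ℝ) else 0) ≤ (Box V N).card * (m / N) := by
  have hN0 : (0 : ℝ) < N := by exact_mod_cast hN
  have h1 := sum_coord N (fun n => if q n then (1 : ℝ) else 0) i
  have h2 : ∑ s ∈ Icc 1 N, (if q s then (1 : ℝ) else 0) ≤ m := by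
    rw [← sum_filter, sum_const, nsmul_eq_mul, mul_one]
    exact_mod_cast h
  have h3 : N * ∑ x ∈ Box V N, (if q (x i) then (1 : ℝ) else 0) ≤ N * ((Box V N).card * (m / N)) := by
    rw [h1]
    calc ((Box V N).card : ℝ) * ∑ s ∈ Icc 1 N, (if q s then (1 : ℝ) else 0) ≤ (Box V N).card * m :=
          mul_le_mul_of_nonneg_left h2 (Nat.cast_nonneg _)
      _ = _ := by field_simp
  exact le_of_mul_le_mul_left h3 hN0

/-- the product over the edges -/
noncomputable def PR (D : Edges V ι) (c : ι → ℕ) (f : ℕ → ℝ) (H : ι → ℕ) (x : V → ℕ) : ℝ := ∏ e ∈ D.E, wa f (H e) (D.L c e x)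

/-- pointwise comparison -/
lemma pointwise (D : Edges V ι) (c : ι → ℕ) (N A k T : ℕ) (hN : 2 ≤ N) (hT : 1 ≤ T) (θ : ℝ) (hθ0 : 0 < θ) (hθ1 : θ ≤ 1)
    (hcard : D.E.card ≤ k) (hl0 : 1 ≤ Real.log N)
    (hl1 : (1 + θ) * Real.log T ≤ θ * Real.log N) (hl2 : Real.log (A + 1) ≤ θ * Real.log N)
    (H : ι → ℕ) (hH : ∀ e, H e ≤ N) (hK : ∀ e ∈ D.E, ∀ x ∈ Icc 1 N, ∀ y ∈ Icc 1 N, D.a e * x + D.b e * y + c e ≤ A * N)
    (x : V → ℕ) (hx : x ∈ Box V N) :
    |PR D c (fun n => Real.log N * onP n) H x - PR D c (lamP ((A + 1) * N)) H x| ≤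
      2 ^ k * θ * PR D c (lamT ((A + 1) * N)) H x +
      ∑ e ∈ D.E, 2 ^ k * ((if x (D.u e) * T < N then 1 else 0) * PR D c (lamT ((A + 1) * N)) H x) +
      ∑ e ∈ D.E, Real.log (((A + 1) * N : ℕ) : ℝ) ^ k * (if x (D.u e) * x (D.u e) < N then 1 else 0) := by
  set K := (A + 1) * N with hKd
  set L := Real.log (K : ℝ) with hL
  have hNr : (2 : ℝ) ≤ N := by exact_mod_cast hN
  have hN0 : (0 : ℝ) < N := by linarith
  have hKN : N ≤ K := Nat.le_mul_of_pos_left _ (by omega)
  have hlogN : 0 < Real.log N := Real.log_pos (by linarith)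
  have hLN : Real.log N ≤ L := Real.log_le_log hN0 (by exact_mod_cast hKN)
  have hK1 : 1 ≤ K := by omega
  set P : ι → ℝ := fun e => wa (fun n => Real.log N * onP n) (H e) (D.L c e x) with hP
  set Qe : ι → ℝ := fun e => wa (lamP K) (H e) (D.L c e x) with hQe
  set R : ι → ℝ := fun e => wa (lamT K) (H e) (D.L c e x) with hR
  have hP0 : ∀ e, 0 ≤ P e := fun e => wa_nonneg _ (fun n => mul_nonneg hlogN.le (onP_nonneg n)) _ _
  have hQ0 : ∀ e, 0 ≤ Qe e := fun e => wa_nonneg _ (lamP_nonneg K) _ _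
  have hR0 : ∀ e, 0 ≤ R e := fun e => wa_nonneg _ (lamT_nonneg K) _ _
  have hQR : ∀ e, Qe e ≤ R e := fun e => wa_mono _ _ (lamP_le K) _ _
  have hLx : ∀ e ∈ D.E, D.L c e x + H e ≤ K := by
    intro e he
    have h1 := hK e he (x (D.u e)) (mem_Box.1 hx _) (x (D.v e)) (mem_Box.1 hx _)
    have h2 := hH e
    unfold Edges.L lf
    rw [hKd, add_mul, one_mul]
    omega
  have hxu : ∀ e ∈ D.E, x (D.u e) ≤ D.L c e x := by
    intro e he
    have := D.ha e he
    unfold Edges.L lf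
    calc x (D.u e) = 1 * x (D.u e) := (one_mul _).symm
      _ ≤ D.a e * x (D.u e) := Nat.mul_le_mul_right _ this
      _ ≤ _ := by omega
  have hPRn : PR D c (fun n => Real.log N * onP n) H x = ∏ e ∈ D.E, P e := rfl
  have hQRn : PR D c (lamP K) H x = ∏ e ∈ D.E, Qe e := rfl
  have hRn : PR D c (lamT K) H x = ∏ e ∈ D.E, R e := rfl
  rw [hPRn, hQRn, hRn]
  have hRp : 0 ≤ ∏ e ∈ D.E, R e := prod_nonneg fun e _ => hR0 e
  have hPp : 0 ≤ ∏ e ∈ D.E, P e := prod_nonneg fun e _ => hP0 e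
  have hQp : 0 ≤ ∏ e ∈ D.E, Qe e := prod_nonneg fun e _ => hQ0 e
  have hQRp : ∏ e ∈ D.E, Qe e ≤ ∏ e ∈ D.E, R e := prod_le_prod (fun e _ => hQ0 e) (fun e _ => hQR e)
  have h2k : (2 : ℝ) ^ D.E.card ≤ 2 ^ k := pow_le_pow_right₀ (by norm_num) hcard
  have hL0 : 0 ≤ L := hlogN.le.trans hLN
  have hT1 : 0 ≤ 2 ^ k * θ * ∏ e ∈ D.E, R e := by positivity
  have hT2 : 0 ≤ ∑ e ∈ D.E, 2 ^ k * ((if x (D.u e) * T < N then (1 : ℝ) else 0) * ∏ e ∈ D.E, R e) := by
    apply sum_nonneg
    intro e _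
    split_ifs
    · positivity
    · simp
  have hT3 : 0 ≤ ∑ e ∈ D.E, L ^ k * (if x (D.u e) * x (D.u e) < N then (1 : ℝ) else 0) := by
    apply sum_nonneg
    intro e _
    split_ifs
    · positivity
    · simp
  by_cases hb1 : ∃ e ∈ D.E, D.L c e x * D.L c e x < N
  · -- some value is very small
    obtain ⟨e0, he0, hlt⟩ := hb1
    have h1 : x (D.u e0) * x (D.u e0) < N := lt_of_le_of_lt (Nat.mul_le_mul (hxu e0 he0) (hxu e0 he0)) hlt
    have h2 : L ^ k ≤ ∑ e ∈ D.E, L ^ k * (if x (D.u e) * x (D.u e) < N then (1 : ℝ) else 0) := by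
      have h3 := single_le_sum (f := fun e => L ^ k * (if x (D.u e) * x (D.u e) < N then (1 : ℝ) else 0))
        (fun e _ => by split_ifs <;> [positivity; simp]) he0
      simp only [if_pos h1, mul_one] at h3
      exact h3
    have hL1 : 1 ≤ L := hl0.trans hLN
    have hPL : ∀ e, P e ≤ L := fun e => wa_le _ L hL0 (fun n => by
      unfold onP
      split_ifs
      · rw [mul_one]; exact hLN
      · rw [mul_zero]; exact hL0) _ _
    have hQL : ∀ e, Qe e ≤ L := fun e => wa_le _ L hL0 (fun n => (lamP_le K n).trans ((le_abs_self _).trans (lamT_abs K hK1 n))) _ _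
    have hLk : L ^ D.E.card ≤ L ^ k := pow_le_pow_right₀ hL1 hcard
    have h3 : ∏ e ∈ D.E, P e ≤ L ^ k := by
      refine le_trans ?_ hLk
      rw [← prod_const]
      exact prod_le_prod (fun e _ => hP0 e) (fun e _ => hPL e)
    have h4 : ∏ e ∈ D.E, Qe e ≤ L ^ k := by
      refine le_trans ?_ hLk
      rw [← prod_const]
      exact prod_le_prod (fun e _ => hQ0 e) (fun e _ => hQL e)
    have h5 : |∏ e ∈ D.E, P e - ∏ e ∈ D.E, Qe e| ≤ L ^ k := by
      rw [abs_le]; constructor <;> linarith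
    linarith
  · push Not at hb1
    have hP2 : ∀ e ∈ D.E, P e ≤ 2 * Qe e := by
      intro e he
      apply wa_comp
      intro m hm1 hm2
      have h1 := hb1 e he
      have h2 := hLx e he
      unfold onP lamP
      by_cases hp : m.Prime
      · rw [if_pos hp, if_pos ⟨by omega, hp⟩, mul_one]
        have h3 : (N : ℝ) ≤ (m : ℝ) ^ 2 := by
          have h4 : N ≤ m ^ 2 := by nlinarith
          exact_mod_cast h4
        have h4 := Real.log_le_log hN0 h3
        rw [Real.log_pow] at h4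
        push_cast at h4
        exact h4
      · rw [if_neg hp, if_neg (fun h => hp h.2)]
        simp
    by_cases hb2 : ∃ e ∈ D.E, D.L c e x * T < N
    · obtain ⟨e0, he0, hlt⟩ := hb2
      have h1 : x (D.u e0) * T < N := lt_of_le_of_lt (Nat.mul_le_mul_right _ (hxu e0 he0)) hlt
      have h2 : 2 ^ k * ∏ e ∈ D.E, R e ≤ ∑ e ∈ D.E, 2 ^ k * ((if x (D.u e) * T < N then (1 : ℝ) else 0) * ∏ e ∈ D.E, R e) := by
        have h3 := single_le_sum (f := fun e => 2 ^ k * ((if x (D.u e) * T < N then (1 : ℝ) else 0) * ∏ e ∈ D.E, R e))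
          (fun e _ => by split_ifs <;> [positivity; simp]) he0
        simp only [if_pos h1, one_mul] at h3
        exact h3
      have h3 : ∏ e ∈ D.E, P e ≤ 2 ^ k * ∏ e ∈ D.E, Qe e := by
        calc ∏ e ∈ D.E, P e ≤ ∏ e ∈ D.E, (2 * Qe e) := prod_le_prod (fun e _ => hP0 e) hP2
          _ = 2 ^ D.E.card * ∏ e ∈ D.E, Qe e := by rw [prod_mul_distrib, prod_const]
          _ ≤ _ := mul_le_mul_of_nonneg_right h2k hQp
      have h4 : (1 : ℝ) ≤ 2 ^ k := one_le_pow₀ (by norm_num)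
      have h5 : ∏ e ∈ D.E, Qe e ≤ 2 ^ k * ∏ e ∈ D.E, Qe e := le_mul_of_one_le_left hQp h4
      have h6 : 2 ^ k * ∏ e ∈ D.E, Qe e ≤ 2 ^ k * ∏ e ∈ D.E, R e := mul_le_mul_of_nonneg_left hQRp (by positivity)
      have h7 : |∏ e ∈ D.E, P e - ∏ e ∈ D.E, Qe e| ≤ 2 ^ k * ∏ e ∈ D.E, R e := by
        rw [abs_le]; constructor <;> linarith
      linarith
    · push Not at hb2
      have hcmp : ∀ e ∈ D.E, |P e - Qe e| ≤ θ * Qe e := by
        intro e he
        have h1 := hb2 e he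
        have h2 := hLx e he
        have h3 : P e ≤ (1 + θ) * Qe e := by
          apply wa_comp
          intro m hm1 hm2
          unfold onP lamP
          by_cases hp : m.Prime
          · rw [if_pos hp, if_pos ⟨by omega, hp⟩, mul_one]
            have hm0 : (0 : ℝ) < m := by exact_mod_cast hp.pos
            have hT0 : (0 : ℝ) < T := by exact_mod_cast hT
            have h4 : (N : ℝ) ≤ (m : ℝ) * T := by
              have h5 : N ≤ m * T := h1.trans (Nat.mul_le_mul_right _ hm1.le)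
              exact_mod_cast h5
            have h5 := Real.log_le_log hN0 h4
            rw [Real.log_mul hm0.ne' hT0.ne'] at h5
            nlinarith
          · rw [if_neg hp, if_neg (fun h => hp h.2)]
            simp
        have h4 : (1 - θ) * Qe e ≤ P e := by
          have h5 : wa (fun m => (1 - θ) * lamP K m) (H e) (D.L c e x) ≤ 1 * P e := by
            apply wa_comp
            intro m hm1 hm2
            rw [one_mul]
            unfold onP lamP
            by_cases hp : m.Prime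
            · rw [if_pos hp, if_pos ⟨by omega, hp⟩, mul_one]
              have hm0 : (0 : ℝ) < m := by exact_mod_cast hp.pos
              have h6 : (m : ℝ) ≤ (A + 1) * N := by
                have h7 : m ≤ (A + 1) * N := by omega
                exact_mod_cast h7
              have h7 := Real.log_le_log hm0 h6
              rw [Real.log_mul (by positivity) hN0.ne'] at h7
              have h8 : 0 ≤ Real.log ((A : ℝ) + 1) := Real.log_nonneg (by have : (0 : ℝ) ≤ A := Nat.cast_nonneg _; linarith)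
              have h9 : 0 ≤ Real.log m := Real.log_natCast_nonneg _
              nlinarith
            · rw [if_neg hp, if_neg (fun h => hp h.2)]
              simp
          rw [one_mul] at h5
          refine le_trans (le_of_eq ?_) h5
          simp only [hQe]
          unfold wa
          rw [← mul_sum]
          ring
        rw [abs_le]
        constructor <;> linarith
      have h1 := (prod_comp D.E P Qe θ hθ0.le hθ1 (fun e _ => hQ0 e) (fun e _ => hP0 e) hcmp).1
      have h2 : 2 ^ D.E.card * θ * ∏ e ∈ D.E, Qe e ≤ 2 ^ k * θ * ∏ e ∈ D.E, R e := by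
        apply mul_le_mul _ hQRp hQp (by positivity)
        exact mul_le_mul_of_nonneg_right h2k hθ0.le
      linarith

lemma sum_PR_diff (D : Edges V ι) (c : ι → ℕ) (N A k : ℕ) (hN : 1 ≤ N) (hcard : D.E.card ≤ k) (hl0 : 1 ≤ Real.log N)
    (H : ι → ℕ) (hH1 : ∀ e, 1 ≤ H e) (hH : ∀ e, H e ≤ N) (hK : ∀ e ∈ D.E, ∀ x ∈ Icc 1 N, ∀ y ∈ Icc 1 N, D.a e * x + D.b e * y + c e ≤ A * N) :
    ∑ x ∈ Box V N, |PR D c (lamP ((A + 1) * N)) H x - PR D c (lamT ((A + 1) * N)) H x| ≤
      (Box V N).card * (k * Real.log (((A + 1) * N : ℕ) : ℝ) ^ (k + 1) * (2 * √(((A + 1) * N : ℕ) : ℝ)) / N) := by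
  set K := (A + 1) * N with hKd
  set L := Real.log (K : ℝ) with hL
  have hN0 : (0 : ℝ) < N := by exact_mod_cast hN
  have hKN : N ≤ K := Nat.le_mul_of_pos_left _ (by omega)
  have hK1 : 1 ≤ K := by omega
  have hLN : Real.log N ≤ L := Real.log_le_log hN0 (by exact_mod_cast hKN)
  have hL1 : 1 ≤ L := hl0.trans hLN
  have h1 : ∀ x ∈ Box V N, |PR D c (lamP K) H x - PR D c (lamT K) H x| ≤
      L ^ k * ∑ e ∈ D.E, (wa (lamT K) (H e) (D.L c e x) - wa (lamP K) (H e) (D.L c e x)) := by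
    intro x _
    have h2 := (prod_diff_le D.E (fun e => wa (lamP K) (H e) (D.L c e x)) (fun e => wa (lamT K) (H e) (D.L c e x)) L hL1
      (fun e _ => wa_nonneg _ (lamP_nonneg K) _ _) (fun e _ => wa_mono _ _ (lamP_le K) _ _)
      (fun e _ => wa_le _ L (by linarith) (fun n => (le_abs_self _).trans (lamT_abs K hK1 n)) _ _)).1
    have h3 : PR D c (lamP K) H x ≤ PR D c (lamT K) H x :=
      prod_le_prod (fun e _ => wa_nonneg _ (lamP_nonneg K) _ _) (fun e _ => wa_mono _ _ (lamP_le K) _ _)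
    rw [abs_sub_comm, abs_of_nonneg (by linarith)]
    refine h2.trans ?_
    apply mul_le_mul_of_nonneg_right (pow_le_pow_right₀ hL1 hcard)
    exact sum_nonneg fun e _ => sub_nonneg.2 (wa_mono _ _ (lamP_le K) _ _)
  refine (sum_le_sum h1).trans ?_
  rw [← mul_sum, sum_comm]
  have h2 : ∀ e ∈ D.E, ∑ x ∈ Box V N, (wa (lamT K) (H e) (D.L c e x) - wa (lamP K) (H e) (D.L c e x)) ≤
      (Box V N).card * (2 * √(K : ℝ) * L / N) := by
    intro e he
    have hHe : (0 : ℝ) < H e := by exact_mod_cast hH1 e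
    have h3 : ∀ x ∈ Box V N, wa (lamT K) (H e) (D.L c e x) - wa (lamP K) (H e) (D.L c e x) =
        (1 / (H e : ℝ)) * ∑ h ∈ Icc 1 (H e), (lamT K (lf (D.u e) (D.v e) (D.a e) (D.b e) (c e + h) x) - lamP K (lf (D.u e) (D.v e) (D.a e) (D.b e) (c e + h) x)) := by
      intro x _
      unfold wa
      rw [← mul_sub, ← sum_sub_distrib]
      congr 1
      apply sum_congr rfl
      intro h _
      have e1 : D.L c e x + h = lf (D.u e) (D.v e) (D.a e) (D.b e) (c e + h) x := by unfold Edges.L lf; ring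
      rw [e1]
    rw [sum_congr rfl h3, ← mul_sum, sum_comm]
    have h4 : ∀ h ∈ Icc 1 (H e), ∑ x ∈ Box V N, (lamT K (lf (D.u e) (D.v e) (D.a e) (D.b e) (c e + h) x) - lamP K (lf (D.u e) (D.v e) (D.a e) (D.b e) (c e + h) x)) ≤
        (Box V N).card * (2 * √(K : ℝ) * L / N) := by
      intro h hh
      rw [mem_Icc] at hh
      have h5 := sum_lf (V := V) N K (D.a e) (D.b e) (c e + h) (D.u e) (D.v e) (D.ne e he) (D.ha e he) (fun x hx y hy => by
        have h6 := hK e he x hx y hy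
        have h7 := hH e
        rw [hKd, add_mul, one_mul]
        omega) (fun n => lamT K n - lamP K n) (fun n => sub_nonneg.2 (lamP_le K n))
      have h6 : N * ∑ x ∈ Box V N, (lamT K (lf (D.u e) (D.v e) (D.a e) (D.b e) (c e + h) x) - lamP K (lf (D.u e) (D.v e) (D.a e) (D.b e) (c e + h) x)) ≤
          N * ((Box V N).card * (2 * √(K : ℝ) * L / N)) := by
        refine h5.trans ?_
        calc ((Box V N).card : ℝ) * ∑ n ∈ Icc 1 K, (lamT K n - lamP K n) ≤ (Box V N).card * (2 * √(K : ℝ) * L) :=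
              mul_le_mul_of_nonneg_left (psi_theta K hK1) (Nat.cast_nonneg _)
          _ = _ := by field_simp
      exact le_of_mul_le_mul_left h6 hN0
    calc 1 / (H e : ℝ) * _ ≤ 1 / (H e : ℝ) * ∑ h ∈ Icc 1 (H e), ((Box V N).card : ℝ) * (2 * √(K : ℝ) * L / N) :=
          mul_le_mul_of_nonneg_left (sum_le_sum h4) (by positivity)
      _ = _ := by
          rw [sum_const, Nat.card_Icc, Nat.add_sub_cancel, nsmul_eq_mul]
          field_simp
  have h3 := sum_le_sum h2
  rw [sum_const, nsmul_eq_mul] at h3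
  have hc : (D.E.card : ℝ) ≤ k := by exact_mod_cast hcard
  calc L ^ k * _ ≤ L ^ k * (D.E.card * ((Box V N).card * (2 * √(K : ℝ) * L / N))) := mul_le_mul_of_nonneg_left h3 (by positivity)
    _ ≤ L ^ k * (k * ((Box V N).card * (2 * √(K : ℝ) * L / N))) := by
        apply mul_le_mul_of_nonneg_left _ (by positivity)
        exact mul_le_mul_of_nonneg_right hc (by positivity)
    _ = _ := by rw [pow_succ]; ring

end Pool.Agent.H68.GR
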