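import Mathlib
import Pool.Agent.H68.GR.Prime

set_option autoImplicit false
set_option linter.unusedVariables false
set_option linter.unusedSectionVars false

/-! The main theorem for the primes. -/

namespace Pool.Agent.H68.GR
open Finset
open Pool.Agent.H373R2.T7
open Pool.Agent.H807R2.Dav

variable {V : Type*} [Fintype V] [DecidableEq V] {ι : Type*} [DecidableEq ι]

lemma sum_PR_le (D : Edges V ι) (c : ι → ℕ) (N : ℕ) (f : ℕ → ℝ) (H : ι → ℕ) (q : (V → ℕ) → Prop) [DecidablePred q] (δ : ℝ)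
    (h : ‖Swin D c N (fun x => if q x then 1 else 0) f H - ∑ x ∈ Box V N, (if q x then (1 : ℂ) else 0)‖ ≤ δ) :
    ∑ x ∈ Box V N, (if q x then (1 : ℝ) else 0) * PR D c f H x ≤ ∑ x ∈ Box V N, (if q x then (1 : ℝ) else 0) + δ := by
  have e : Swin D c N (fun x => if q x then 1 else 0) f H - ∑ x ∈ Box V N, (if q x then (1 : ℂ) else 0) =
      ((∑ x ∈ Box V N, (if q x then (1 : ℝ) else 0) * PR D c f H x - ∑ x ∈ Box V N, (if q x then (1 : ℝ) else 0) : ℝ) : ℂ) := by
    unfold Swin PR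
    push_cast
    congr 1
    · apply sum_congr rfl
      intro x _
      split_ifs <;> simp
    · apply sum_congr rfl
      intro x _
      split_ifs <;> simp
  rw [e, Complex.norm_real, Real.norm_eq_abs] at h
  linarith [(abs_le.1 h).2]

/-- **The main theorem for the primes.** -/
theorem main_prime [Fintype ι] (k A : ℕ) (ε : ℝ) (hε : 0 < ε) : ∃ K0 : ℕ, 1 ≤ K0 ∧ ∃ N0 : ℕ, ∀ N : ℕ, N0 ≤ N →
    ∀ H : ι → ℕ, (∀ e, K0 ≤ H e) → (∀ e, H e ≤ N) → ∀ (D : Edges V ι) (c : ι → ℕ) (w : (V → ℕ) → ℂ), (∀ x, ‖w x‖ ≤ 1) →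
    Good D c N (A * N) w → D.E.card ≤ k →
      ‖∑ x ∈ Box V N, w x * ((PR D c (fun n => Real.log N * onP n) H x : ℝ) : ℂ) - ∑ x ∈ Box V N, w x‖ ≤ ε * (Box V N).card := by
  set ε1 : ℝ := min 1 (ε / (10 * (2 ^ k * (k + 1)))) with hε1
  have hden : (0 : ℝ) < 10 * (2 ^ k * (k + 1)) := by positivity
  have hε1p : 0 < ε1 := lt_min one_pos (by positivity)
  have hε11 : ε1 ≤ 1 := min_le_left _ _
  have hε12 : 2 ^ k * (k + 1) * ε1 ≤ ε / 10 := by
    have h1 : ε1 ≤ ε / (10 * (2 ^ k * (k + 1))) := min_le_right _ _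
    calc 2 ^ k * (k + 1) * ε1 ≤ 2 ^ k * (k + 1) * (ε / (10 * (2 ^ k * (k + 1)))) := mul_le_mul_of_nonneg_left h1 (by positivity)
      _ = ε / 10 := by field_simp
  have h2k : (1 : ℝ) ≤ 2 ^ k := one_le_pow₀ (by norm_num)
  have hk0 : (0 : ℝ) ≤ k := Nat.cast_nonneg _
  have hε13 : ε1 ≤ ε / 10 := by
    refine le_trans ?_ hε12
    have : (1 : ℝ) ≤ 2 ^ k * (k + 1) := by nlinarith
    nlinarith
  have hε14 : 2 ^ k * (k * ε1) ≤ ε / 10 := by
    refine le_trans ?_ hε12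
    nlinarith [mul_nonneg (by positivity : (0 : ℝ) ≤ 2 ^ k) hε1p.le]
  set θ : ℝ := min 1 (ε / (20 * 2 ^ k)) with hθ
  have hθ0 : 0 < θ := lt_min one_pos (by positivity)
  have hθ1 : θ ≤ 1 := min_le_left _ _
  have hθ2 : 2 ^ k * θ * 2 ≤ ε / 10 := by
    have h1 : θ ≤ ε / (20 * 2 ^ k) := min_le_right _ _
    calc 2 ^ k * θ * 2 ≤ 2 ^ k * (ε / (20 * 2 ^ k)) * 2 := by gcongr
      _ = ε / 10 := by field_simp; norm_num
  obtain ⟨T0, hT0⟩ := exists_nat_ge (10 * (2 ^ k * k) / ε)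
  set T : ℕ := T0 + 1 with hT
  have hT1 : 1 ≤ T := by omega
  have hTr : (0 : ℝ) < T := by exact_mod_cast hT1
  have hTε : 2 ^ k * (k * (1 / (T : ℝ))) ≤ ε / 10 := by
    have h1 : 10 * (2 ^ k * k) / ε ≤ (T : ℝ) := by rw [hT]; push_cast; linarith
    rw [div_le_iff₀ hε] at h1
    have h2 : 2 ^ k * (k * (1 / (T : ℝ))) = (2 ^ k * k) / T := by ring
    rw [h2, div_le_iff₀ hTr]
    linarith
  obtain ⟨K0, hK0, n1, h1⟩ := main_win (V := V) (ι := ι) k A ε1 hε1p
  obtain ⟨n2, h2⟩ := ev_log' (k + 1) (20 * (k + 1) * (A + 1) / ε)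
  obtain ⟨n3, h3⟩ := ev_L' (max 1 (max ((1 + θ) * Real.log T / θ) (Real.log (A + 1) / θ)))
  refine ⟨K0, hK0, max (max n1 n2) (max n3 4), fun N hN H hH hHN D c w hw hG hk => ?_⟩
  have hN4 : 4 ≤ N := le_trans (le_trans (le_max_right _ _) (le_max_right _ _)) hN
  have hn1 : n1 ≤ N := le_trans (le_trans (le_max_left _ _) (le_max_left _ _)) hN
  have hn2 : n2 ≤ N := le_trans (le_trans (le_max_right _ _) (le_max_left _ _)) hN
  have hn3 : n3 ≤ N := le_trans (le_trans (le_max_left _ _) (le_max_right _ _)) hN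
  have hlogs := h3 N hn3
  have hl0 : 1 ≤ Real.log N := (le_max_left _ _).trans hlogs
  have hl1 : (1 + θ) * Real.log T ≤ θ * Real.log N := by
    have := ((le_max_left _ _).trans (le_max_right _ _)).trans hlogs
    rw [div_le_iff₀ hθ0] at this
    linarith
  have hl2 : Real.log (A + 1) ≤ θ * Real.log N := by
    have := ((le_max_right _ _).trans (le_max_right _ _)).trans hlogs
    rw [div_le_iff₀ hθ0] at this
    linarith
  set K := (A + 1) * N with hKd
  set L := Real.log (K : ℝ) with hL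
  have hKN : N ≤ K := Nat.le_mul_of_pos_left _ (by omega)
  have hNr : (4 : ℝ) ≤ N := by exact_mod_cast hN4
  have hN0 : (0 : ℝ) < N := by linarith
  have hLN : Real.log N ≤ L := Real.log_le_log hN0 (by exact_mod_cast hKN)
  have hL1 : 1 ≤ L := hl0.trans hLN
  have hKr : (K : ℝ) = (A + 1) * N := by rw [hKd]; push_cast; ring
  have hK0' : (0 : ℝ) < K := by rw [hKr]; positivity
  have hsK : 0 < √(K : ℝ) := Real.sqrt_pos.2 hK0'
  have hbig := h2 K (hn2.trans hKN)
  rw [← hL] at hbig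
  have hH1 : ∀ e, 1 ≤ H e := fun e => hK0.trans (hH e)
  set Bc : ℝ := ((Box V N).card : ℝ) with hBc
  have hBc0 : 0 ≤ Bc := Nat.cast_nonneg _
  -- the numerical bound
  have hnum : k * L ^ (k + 1) * (2 * √(K : ℝ)) / N ≤ ε / 10 := by
    have h4 : (K : ℝ) = √(K : ℝ) * √(K : ℝ) := (Real.mul_self_sqrt hK0'.le).symm
    have h5 : (N : ℝ) = √(K : ℝ) * √(K : ℝ) / (A + 1) := by
      rw [← h4, hKr]; field_simp
    rw [h5]
    have hA : (0 : ℝ) < (A : ℝ) + 1 := by positivity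
    rw [div_div_eq_mul_div, div_le_iff₀ (by positivity)]
    have h6 : 20 * (k + 1) * (A + 1) / ε * L ^ (k + 1) * ε ≤ √(K : ℝ) * ε := mul_le_mul_of_nonneg_right hbig hε.le
    have h7 : 20 * (k + 1) * ((A : ℝ) + 1) / ε * L ^ (k + 1) * ε = 20 * (k + 1) * (A + 1) * L ^ (k + 1) := by field_simp
    rw [h7] at h6
    have h8 : 20 * k * ((A : ℝ) + 1) * L ^ (k + 1) ≤ √(K : ℝ) * ε := by
      refine le_trans ?_ h6
      have : 0 ≤ ((A : ℝ) + 1) * L ^ (k + 1) := by positivity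
      nlinarith
    calc k * L ^ (k + 1) * (2 * √(K : ℝ)) * (A + 1) = (20 * k * ((A : ℝ) + 1) * L ^ (k + 1)) * √(K : ℝ) / 10 := by ring
      _ ≤ (√(K : ℝ) * ε) * √(K : ℝ) / 10 := by gcongr
      _ = ε / 10 * (√(K : ℝ) * √(K : ℝ)) := by ring
  have hnum2 : k * (L ^ k * ((Nat.sqrt N : ℝ) / N)) ≤ ε / 10 := by
    refine le_trans ?_ hnum
    have h4 : (Nat.sqrt N : ℝ) ≤ √(K : ℝ) := by
      apply Real.le_sqrt_of_sq_le
      have h5 : Nat.sqrt N ^ 2 ≤ N := Nat.sqrt_le' N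
      have h6 : ((Nat.sqrt N : ℕ) : ℝ) ^ 2 ≤ N := by exact_mod_cast h5
      exact h6.trans (by exact_mod_cast hKN)
    have h7 : L ^ k ≤ L ^ (k + 1) := pow_le_pow_right₀ hL1 (by omega)
    calc (k : ℝ) * (L ^ k * ((Nat.sqrt N : ℝ) / N)) ≤ k * (L ^ (k + 1) * (√(K : ℝ) / N)) := by gcongr
      _ ≤ k * L ^ (k + 1) * (2 * √(K : ℝ)) / N := by
          have : 0 ≤ (k : ℝ) * L ^ (k + 1) * √(K : ℝ) / N := by positivity
          have e : k * L ^ (k + 1) * (2 * √(K : ℝ)) / N = 2 * ((k : ℝ) * L ^ (k + 1) * √(K : ℝ) / N) := by ring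
          rw [e]
          have e2 : (k : ℝ) * (L ^ (k + 1) * (√(K : ℝ) / N)) = (k : ℝ) * L ^ (k + 1) * √(K : ℝ) / N := by ring
          rw [e2]
          linarith
  -- part (a)
  have ha := h1 N hn1 H hH hHN D c w hw hG hk
  rw [← hKd] at ha
  -- part (b)
  have hb : ∑ x ∈ Box V N, PR D c (lamT K) H x ≤ Bc * 2 := by
    have h4 := sum_PR_le D c N (lamT K) H (fun _ => True) (ε1 * Bc) (by
      have h5 := h1 N hn1 H hH hHN D c (fun _ => 1) (fun _ => by simp) ⟨hG.hK, fun e _ =>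
        ⟨fun _ => 1, fun _ => 1, fun _ => by simp, fun _ => by simp, fun _ _ => rfl, fun _ _ => rfl, fun _ => by simp⟩⟩ hk
      simpa using h5)
    simp only [if_true, one_mul, sum_const, nsmul_eq_mul, mul_one] at h4
    nlinarith
  -- part (c)
  have hc : ∀ i : V, ∑ x ∈ Box V N, (if x i * T < N then (1 : ℝ) else 0) * PR D c (lamT K) H x ≤ Bc * (1 / T + ε1) := by
    intro i
    have h4 := sum_PR_le D c N (lamT K) H (fun x => x i * T < N) (ε1 * Bc) (by
      exact h1 N hn1 H hH hHN D c (fun x => if x i * T < N then 1 else 0) (fun x => by split_ifs <;> simp) ⟨hG.hK, fun e he =>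
        split_coord D i (fun n => if n * T < N then 1 else 0) (fun n => by split_ifs <;> simp) e he⟩ hk)
    have h5 := card_small_coord (V := V) N (N / T) (by omega) i (fun n => n * T < N) (by
      calc ((Icc 1 N).filter (fun n => n * T < N)).card ≤ (Icc 1 (N / T)).card := by
            apply card_le_card
            intro n hn
            rw [mem_filter, mem_Icc] at hn
            rw [mem_Icc]
            exact ⟨hn.1.1, (Nat.le_div_iff_mul_le (by omega)).2 hn.2.le⟩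
        _ = N / T := by simp)
    have h6 : (((N / T : ℕ) : ℝ) / N) ≤ 1 / T := by
      rw [div_le_div_iff₀ hN0 hTr, one_mul]
      have := Nat.div_mul_le_self N T
      exact_mod_cast this
    have h7 := mul_le_mul_of_nonneg_left h6 hBc0
    refine h4.trans ?_
    have h8 := h5.trans h7
    linarith
  -- part (d)
  have hd : ∀ i : V, ∑ x ∈ Box V N, (if x i * x i < N then (1 : ℝ) else 0) ≤ Bc * ((Nat.sqrt N : ℝ) / N) := by
    intro i
    apply card_small_coord (V := V) N (Nat.sqrt N) (by omega) i (fun n => n * n < N)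
    calc ((Icc 1 N).filter (fun n => n * n < N)).card ≤ (Icc 1 (Nat.sqrt N)).card := by
          apply card_le_card
          intro n hn
          rw [mem_filter, mem_Icc] at hn
          rw [mem_Icc]
          exact ⟨hn.1.1, Nat.le_sqrt.2 hn.2.le⟩
      _ = Nat.sqrt N := by simp
  have hpt := fun x hx => pointwise D c N A k T (by omega) hT1 θ hθ0 hθ1 hk hl0 hl1 hl2 H hHN hG.hK x hx
  rw [← hKd, ← hL] at hpt
  have hcard : (D.E.card : ℝ) ≤ k := by exact_mod_cast hk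
  have hsum : ∑ x ∈ Box V N, |PR D c (fun n => Real.log N * onP n) H x - PR D c (lamP K) H x| ≤ Bc * (4 * (ε / 10)) := by
    refine (sum_le_sum hpt).trans ?_
    rw [sum_add_distrib, sum_add_distrib, ← mul_sum, sum_comm, sum_comm (s := Box V N)]
    have h4 : 2 ^ k * θ * ∑ x ∈ Box V N, PR D c (lamT K) H x ≤ Bc * (ε / 10) := by
      calc 2 ^ k * θ * ∑ x ∈ Box V N, PR D c (lamT K) H x ≤ 2 ^ k * θ * (Bc * 2) := mul_le_mul_of_nonneg_left hb (by positivity)
        _ = Bc * (2 ^ k * θ * 2) := by ring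
        _ ≤ _ := mul_le_mul_of_nonneg_left hθ2 hBc0
    have h5 : ∑ e ∈ D.E, ∑ x ∈ Box V N, 2 ^ k * ((if x (D.u e) * T < N then (1 : ℝ) else 0) * PR D c (lamT K) H x) ≤ Bc * (2 * (ε / 10)) := by
      have h6 : ∀ e ∈ D.E, ∑ x ∈ Box V N, 2 ^ k * ((if x (D.u e) * T < N then (1 : ℝ) else 0) * PR D c (lamT K) H x) ≤ 2 ^ k * (Bc * (1 / T + ε1)) := by
        intro e _
        rw [← mul_sum]
        exact mul_le_mul_of_nonneg_left (hc _) (by positivity)
      refine (sum_le_sum h6).trans ?_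
      rw [sum_const, nsmul_eq_mul]
      calc (D.E.card : ℝ) * (2 ^ k * (Bc * (1 / T + ε1))) ≤ k * (2 ^ k * (Bc * (1 / T + ε1))) :=
            mul_le_mul_of_nonneg_right hcard (by positivity)
        _ = Bc * (2 ^ k * (k * (1 / (T : ℝ))) + 2 ^ k * (k * ε1)) := by ring
        _ ≤ Bc * (ε / 10 + ε / 10) := mul_le_mul_of_nonneg_left (add_le_add hTε hε14) hBc0
        _ = _ := by ring
    have h6 : ∑ e ∈ D.E, ∑ x ∈ Box V N, L ^ k * (if x (D.u e) * x (D.u e) < N then (1 : ℝ) else 0) ≤ Bc * (ε / 10) := by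
      have h7 : ∀ e ∈ D.E, ∑ x ∈ Box V N, L ^ k * (if x (D.u e) * x (D.u e) < N then (1 : ℝ) else 0) ≤ L ^ k * (Bc * ((Nat.sqrt N : ℝ) / N)) := by
        intro e _
        rw [← mul_sum]
        exact mul_le_mul_of_nonneg_left (hd _) (by positivity)
      refine (sum_le_sum h7).trans ?_
      rw [sum_const, nsmul_eq_mul]
      calc (D.E.card : ℝ) * (L ^ k * (Bc * ((Nat.sqrt N : ℝ) / N))) ≤ k * (L ^ k * (Bc * ((Nat.sqrt N : ℝ) / N))) :=
            mul_le_mul_of_nonneg_right hcard (by positivity)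
        _ = Bc * (k * (L ^ k * ((Nat.sqrt N : ℝ) / N))) := by ring
        _ ≤ _ := mul_le_mul_of_nonneg_left hnum2 hBc0
    linarith
  have hsum2 := sum_PR_diff D c N A k (by omega) hk hl0 H hH1 hHN hG.hK
  rw [← hKd, ← hL] at hsum2
  have hsum3 : ∑ x ∈ Box V N, |PR D c (lamP K) H x - PR D c (lamT K) H x| ≤ Bc * (ε / 10) :=
    hsum2.trans (mul_le_mul_of_nonneg_left hnum hBc0)
  have e : ∑ x ∈ Box V N, w x * ((PR D c (fun n => Real.log N * onP n) H x : ℝ) : ℂ) - ∑ x ∈ Box V N, w x =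
      ∑ x ∈ Box V N, w x * ((PR D c (fun n => Real.log N * onP n) H x - PR D c (lamP K) H x : ℝ) : ℂ) +
      ∑ x ∈ Box V N, w x * ((PR D c (lamP K) H x - PR D c (lamT K) H x : ℝ) : ℂ) +
      (Swin D c N w (lamT K) H - ∑ x ∈ Box V N, w x) := by
    unfold Swin
    rw [← sum_add_distrib, ← add_sub_assoc, ← sum_add_distrib]
    congr 1
    apply sum_congr rfl
    intro x _
    unfold PR
    push_cast
    ring
  rw [e]
  have hnorm : ∀ g : (V → ℕ) → ℝ, ‖∑ x ∈ Box V N, w x * ((g x : ℝ) : ℂ)‖ ≤ ∑ x ∈ Box V N, |g x| := by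
    intro g
    refine (norm_sum_le _ _).trans (sum_le_sum fun x _ => ?_)
    rw [norm_mul, Complex.norm_real, Real.norm_eq_abs]
    exact mul_le_of_le_one_left (abs_nonneg _) (hw x)
  refine (norm_add_le _ _).trans ?_
  refine (add_le_add (norm_add_le _ _) le_rfl).trans ?_
  have h4 := (hnorm (fun x => PR D c (fun n => Real.log N * onP n) H x - PR D c (lamP K) H x)).trans hsum
  have h5 := (hnorm (fun x => PR D c (lamP K) H x - PR D c (lamT K) H x)).trans hsum3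
  have h6 : ε1 * Bc ≤ Bc * (ε / 10) := by
    rw [mul_comm]
    exact mul_le_mul_of_nonneg_left hε13 hBc0
  have h7 : 0 ≤ Bc * ε := by positivity
  linarith

end Pool.Agent.H68.GR
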